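import Pool.Agent.TH192.MU.TopZ

set_option autoImplicit false
set_option linter.unusedSectionVars false
set_option linter.unusedVariables false

/-! # The form over the product of the ideals -/

namespace Pool.Agent.TH192.MU

open MvPolynomial Pool.Agent.W428.MOT Pool.Agent.TH192.DT Pool.Agent.TH192.MT

variable {K : Type} [Field K] {T : ℕ} {π : Type}

/-- The products of one polynomial of each family, as one family. -/
@[reducible] noncomputable def XB (X : Sys T) : Sys 1 where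
  ι := X.ι
  fι := X.fι
  Λ := {c : Fin T → X.Λ // ∀ t, X.τ (c t) = t}
  fΛ := by classical exact inferInstance
  τ _ := 0
  G := gX X

/-- the data for the products -/
noncomputable def mB (X : Sys T) (v : Pt K (π ⊕ (X.ι ⊕ X.Λ))) : Pt K (π ⊕ ((XB X).ι ⊕ (XB X).Λ)) :=
  Sum.elim (fun p => v (Sum.inl p)) (Sum.elim (fun i => v (Sum.inr (Sum.inl i)))
    (fun c => ∏ t, v (Sum.inr (Sum.inr (c.1 t)))))

/-- the condition for the families -/
def VBk (X : Sys T) (V : Set (Pt K (π ⊕ ((XB X).ι ⊕ (XB X).Λ)))) :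
    Set (Pt K (π ⊕ (X.ι ⊕ X.Λ))) :=
  {v | (∀ t, ∃ l, X.τ l = t ∧ v (Sum.inr (Sum.inr l)) ≠ 0) ∧ mB X v ∈ V}

theorem pf_mB (X : Sys T) (i : π ⊕ ((XB X).ι ⊕ (XB X).Λ)) :
    IsPF (K := K) (fun v : Pt K (π ⊕ (X.ι ⊕ X.Λ)) => mB (K := K) X v i) := by
  rcases i with p | i | c
  · exact IsPF.coord _
  · exact IsPF.coord _
  · change IsPF fun v : Pt K (π ⊕ (X.ι ⊕ X.Λ)) => ∏ t, v (Sum.inr (Sum.inr (c.1 t)))
    exact IsPF.prod _ (fun t (v : Pt K (π ⊕ (X.ι ⊕ X.Λ))) => v (Sum.inr (Sum.inr (c.1 t))))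
      fun t _ => IsPF.coord _

theorem constr_VBk (X : Sys T) {V : Set (Pt K (π ⊕ ((XB X).ι ⊕ (XB X).Λ)))} (hV : Constr V) :
    Constr (VBk X V) := by
  refine Constr.and ?_ (hV.preimage (fun v : Pt K (π ⊕ (X.ι ⊕ X.Λ)) => mB X v) (pf_mB X))
  exact Constr.all fun t => Constr.ex fun l => Constr.and (Constr.const _)
    (Constr.not (Constr.eqz (IsPF.coord _)))

theorem gd_VBk (X : Sys T) (V : Set (Pt K (π ⊕ ((XB X).ι ⊕ (XB X).Λ)))) : Gd X (VBk X V) :=
  fun _ hv => hv.1

theorem cone_VBk (X : Sys T) {V : Set (Pt K (π ⊕ ((XB X).ι ⊕ (XB X).Λ)))} (hV : Cone (XB X) V) :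
    Cone X (VBk X V) := by
  rintro v ⟨h1, h2⟩ μ hμ
  refine ⟨fun t => ?_, ?_⟩
  · obtain ⟨l, hl, hl'⟩ := h1 t
    exact ⟨l, hl, mul_ne_zero (hμ _) hl'⟩
  · have h3 := hV _ h2 (fun _ => ∏ t, μ t) fun _ => Finset.prod_ne_zero_iff.2 fun t _ => hμ t
    have h4 : mB X (scL X μ v) = scL (XB X) (fun _ => ∏ t, μ t) (mB X v) := by
      funext i
      rcases i with p | i | c
      · rfl
      · rfl
      · change ∏ t, (μ (X.τ (c.1 t)) * v (Sum.inr (Sum.inr (c.1 t)))) =
          (∏ t, μ t) * ∏ t, v (Sum.inr (Sum.inr (c.1 t)))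
        rw [Finset.prod_mul_distrib]
        congr 1
        exact Finset.prod_congr rfl fun t _ => by rw [c.2 t]
    rw [h4]
    exact h3

theorem lead_prod1 {F : Type} [Field F] (α : Fin T → ℕ) (H : Fin T → PowerSeries F)
    (h : ∀ t, Vn (α t) (H t)) : Vn (∑ t, α t) (∏ t, H t) ∧
      PowerSeries.coeff (∑ t, α t) (∏ t, H t) = ∏ t, PowerSeries.coeff (α t) (H t) := by
  have h1 := lead_prod (fun _ => 1) α H h
  simp only [one_mul, pow_one] at h1
  exact h1

/-- the partition of the jets -/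
theorem SSB_eq (X : Sys T) {V : Set (Pt K (π ⊕ ((XB X).ι ⊕ (XB X).Λ)))} (hG : Gd (XB X) V)
    (N : ℕ) : SS (XB X) V (fun _ => N) N =
      ⋃ α ∈ box (fun _ : Fin T => 1) N, SS X (VBk X V) α N := by
  classical
  ext z
  simp only [Set.mem_iUnion, exists_prop, mem_box (fun _ : Fin T => 1) (fun _ => Nat.one_pos),
    one_mul]
  set x : X.ι → PowerSeries (AlgebraicClosure K) := ar fun q => z (Sum.inr q) with hx
  have hdat : ∀ α : Fin T → ℕ, ∑ t, α t = N → Van X α x →
      mB X (dat X α z) = dat (XB X) (fun _ => N) z := by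
    intro α hα hvan
    funext i
    rcases i with p | i | c
    · rfl
    · rfl
    · change ∏ t, lam X α x (c.1 t) = PowerSeries.coeff N (ev x (gX X c))
      rw [ev_gX]
      obtain ⟨-, h2⟩ := lead_prod1 α (fun t => ev x (X.G (c.1 t))) (fun t => by
        have := hvan (c.1 t)
        rw [c.2 t] at this
        exact this)
      rw [hα] at h2
      rw [h2]
      refine Finset.prod_congr rfl fun t _ => ?_
      unfold lam
      rw [c.2 t]
  constructor
  · rintro ⟨h1, h2⟩
    obtain ⟨c, _, hc⟩ := hG _ h2 0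
    have hc' : PowerSeries.coeff N (∏ t, ev x (X.G (c.1 t))) ≠ 0 := by
      rw [← ev_gX]
      exact hc
    have h1' : ∀ c : (XB X).Λ, Vn N (∏ t, ev x (X.G (c.1 t))) := by
      intro c
      rw [← ev_gX]
      exact h1 c
    have h7 : ∀ t, ∃ n, ∃ l, X.τ l = t ∧ PowerSeries.coeff n (ev x (X.G l)) ≠ 0 := by
      intro t
      by_contra h
      push Not at h
      apply hc'
      have h4 : ev x (X.G (c.1 t)) = 0 :=
        PowerSeries.ext fun n => by rw [h n _ (c.2 t), map_zero]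
      rw [Finset.prod_eq_zero (Finset.mem_univ t) h4, map_zero]
    have hvan : Van X (fun t => Nat.find (h7 t)) x := by
      intro l j hj
      have := Nat.find_min (h7 (X.τ l)) hj
      push Not at this
      exact this l rfl
    choose l hl hl' using fun t => Nat.find_spec (h7 t)
    obtain ⟨h4, h5⟩ := lead_prod1 (fun t => Nat.find (h7 t)) (fun t => ev x (X.G (l t)))
      (fun t => by
        have := hvan (l t)
        rw [hl t] at this
        exact this)
    obtain ⟨h6, -⟩ := lead_prod1 (fun t => Nat.find (h7 t)) (fun t => ev x (X.G (c.1 t)))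
      (fun t => by
        have := hvan (c.1 t)
        rw [c.2 t] at this
        exact this)
    have h8 : PowerSeries.coeff (∑ t, Nat.find (h7 t)) (∏ t, ev x (X.G (l t))) ≠ 0 := by
      rw [h5]
      exact Finset.prod_ne_zero_iff.2 fun t _ => hl' t
    have hsum : ∑ t, Nat.find (h7 t) = N := by
      rcases lt_trichotomy (∑ t, Nat.find (h7 t)) N with h | h | h
      · exact absurd (h1' ⟨l, hl⟩ _ h) h8
      · exact h
      · exact absurd (h6 _ h) hc'
    refine ⟨fun t => Nat.find (h7 t), hsum, hvan, fun t => ⟨l t, hl t, ?_⟩, ?_⟩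
    · change PowerSeries.coeff (Nat.find (h7 (X.τ (l t)))) (ev x (X.G (l t))) ≠ 0
      simp only [hl t]
      exact hl' t
    · rw [hdat _ hsum hvan]
      exact h2
  · rintro ⟨α, hα, h1, h2, h3⟩
    refine ⟨fun c => ?_, ?_⟩
    · change Vn N (ev x (gX X c))
      rw [ev_gX]
      obtain ⟨h4, -⟩ := lead_prod1 α (fun t => ev x (X.G (c.1 t))) (fun t => by
        have := h1 (c.1 t)
        rw [c.2 t] at this
        exact this)
      rw [hα] at h4
      exact h4
    · rw [← hdat α hα h1]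
      exact h3

theorem SSB_disj (X : Sys T) (V : Set (Pt K (π ⊕ ((XB X).ι ⊕ (XB X).Λ)))) (N : ℕ)
    (q q' : Fin T → ℕ) (h : q ≠ q') : Disjoint (SS X (VBk X V) q N) (SS X (VBk X V) q' N) := by
  rw [Set.disjoint_left]
  rintro z ⟨h2, h3, _⟩ ⟨h2', h3', _⟩
  apply h
  funext t
  rcases lt_trichotomy (q t) (q' t) with h | h | h
  · exfalso
    obtain ⟨l, hl, hl'⟩ := h3 t
    exact hl' (h2' l _ (by rw [hl]; exact h))
  · exact h
  · exfalso
    obtain ⟨l, hl, hl'⟩ := h3' t
    exact hl' (h2 l _ (by rw [hl]; exact h))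

variable {R : Type} [CommRing R] (M : Meas K R) [Fintype π]

theorem gfB_eq (v : R) (X : Sys T) {V : Set (Pt K (π ⊕ ((XB X).ι ⊕ (XB X).Λ)))}
    (hV : Constr V) (hG : Gd (XB X) V) :
    gf (fun _ : Fin 1 => 1) (mm M v (XB X) V) = gf (fun _ : Fin T => 1) (mm M v X (VBk X V)) := by
  classical
  ext N
  unfold gf
  rw [PowerSeries.coeff_mk, PowerSeries.coeff_mk]
  have h1 : box (fun _ : Fin 1 => 1) N = {fun _ => N} := by
    ext α
    rw [mem_box _ (fun _ => Nat.one_pos), Finset.mem_singleton]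
    simp only [one_mul, Finset.univ_unique, Fin.default_eq_zero, Finset.sum_singleton]
    constructor
    · intro h
      funext i
      rw [Subsingleton.elim i 0, h]
    · rintro rfl
      rfl
  rw [h1, Finset.sum_singleton]
  have h2 : mm M v (XB X) V (fun _ => N) = M.χ _ (SS (XB X) V (fun _ => N) N) *
      v ^ (N * Fintype.card X.ι) := by
    unfold mm
    have h3 : ∑ _t : Fin 1, N = N := by simp
    rw [h3]
  rw [h2, SSB_eq X hG, Pool.Agent.W375.MT.chi_biUnion M _ _
    (fun q _ => constr_SS X (constr_VBk X hV) q N) (fun q _ q' _ h => SSB_disj X V N q q' h),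
    Finset.sum_mul]
  refine Finset.sum_congr rfl fun α hα => ?_
  rw [mem_box _ (fun _ => Nat.one_pos)] at hα
  simp only [one_mul] at hα
  unfold mm
  rw [hα]

/-- The zeta functions of the product family. -/
theorem rl_blk {M : Meas K R} {u : Rˣ} {D : Set (ℤ × ℤ)} {X : Sys T}
    (hX : RL u M (fun _ => 1) D X) : RL u M (fun _ => 1) D (XB X) := by
  intro π _ V hV hG hC
  rw [gfB_eq M _ X hV hG]
  exact hX π _ (constr_VBk X hV) (gd_VBk X V) (cone_VBk X hC)

end Pool.Agent.TH192.MU
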