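import Pool.Agent.TH192.MT.Rec
import Pool.Agent.W417.MT.Free

set_option autoImplicit false
set_option linter.unusedSectionVars false
set_option linter.unusedVariables false

/-! # Scaling of jets, and the factor `𝕃 - 1` -/

namespace Pool.Agent.TH192.MU

open MvPolynomial Pool.Agent.W428.MOT Pool.Agent.TH192.DT Pool.Agent.TH192.MT

section scale

variable {K : Type} [Field K] {R : Type} [CommRing R] (M : Meas K R) {π ρ : Type} [Fintype π]
  [Fintype ρ]

/-- the scaling -/
noncomputable def scl (c : AlgebraicClosure K) (z : Pt K (π ⊕ ρ)) : Pt K (π ⊕ ρ) :=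
  Sum.elim (fun p => z (Sum.inl p)) (fun q => c * z (Sum.inr q))

theorem scl_scl (c d : AlgebraicClosure K) (z : Pt K (π ⊕ ρ)) :
    scl c (scl d z) = scl (c * d) z := by
  funext i
  rcases i with p | q
  · rfl
  · change c * (d * z (Sum.inr q)) = c * d * z (Sum.inr q)
    ring

theorem scl_one (z : Pt K (π ⊕ ρ)) : scl 1 z = z := by
  funext i
  rcases i with p | q
  · rfl
  · change 1 * z (Sum.inr q) = z (Sum.inr q)
    ring

/-- A set of jets which is invariant under scaling, and a coordinate which does not vanish. -/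
theorem chi_scale (A : Set (Pt K (π ⊕ ρ))) (hA : Constr A) (r : ρ)
    (h1 : ∀ z ∈ A, z (Sum.inr r) ≠ 0) (h2 : ∀ z ∈ A, ∀ c, c ≠ 0 → scl c z ∈ A) :
    M.χ _ A = (M.L - 1) * M.χ _ (A ∩ {z | z (Sum.inr r) = 1}) := by
  classical
  set i0 : π ⊕ ρ := Sum.inr r with hi0
  set S : Set (Pt K (π ⊕ ρ)) := {w | Function.update w i0 1 ∈ A} with hS
  have hSc : Constr S := by
    refine hA.preimage (fun w : Pt K (π ⊕ ρ) => Function.update w i0 1) fun i => ?_
    by_cases h : i = i0
    · subst h
      simp only [Function.update_self]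
      exact IsPF.one
    · simp only [Function.update_of_ne h]
      exact IsPF.coord i
  have h3 := Pool.Agent.W417.MT.Free.main M S {i0} ∅ (fun _ => 1)
    (Finset.disjoint_empty_right _) hSc (by
      intro z w hzw hz
      have h4 : Function.update w i0 1 = Function.update z i0 1 := by
        funext i
        by_cases h : i = i0
        · rw [h, Function.update_self, Function.update_self]
        · rw [Function.update_of_ne h, Function.update_of_ne h]
          exact hzw i (by simpa using h) (Finset.notMem_empty i)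
      change Function.update w i0 1 ∈ A
      rw [h4]
      exact hz)
  simp only [Finset.mem_singleton, forall_eq, Finset.union_empty, map_one, Finset.card_singleton,
    pow_one, Finset.card_empty, pow_zero, mul_one] at h3
  have h4 : S ∩ {z : Pt K (π ⊕ ρ) | z i0 = 1} = A ∩ {z | z i0 = 1} := by
    ext z
    simp only [hS, Set.mem_inter_iff, Set.mem_ofPred_eq]
    constructor
    · rintro ⟨h5, h6⟩
      have h7 : Function.update z i0 1 = z := by
        rw [← h6, Function.update_eq_self]
      rw [h7] at h5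
      exact ⟨h5, h6⟩
    · rintro ⟨h5, h6⟩
      have h7 : Function.update z i0 1 = z := by
        rw [← h6, Function.update_eq_self]
      rw [h7]
      exact ⟨h5, h6⟩
  rw [h4] at h3
  rw [mul_comm, ← h3]
  have hne : Constr {z : Pt K (π ⊕ ρ) | z i0 ≠ 0} := Constr.not (Constr.eqz (IsPF.coord i0))
  -- the isomorphism
  refine M.iso _ _ hA (hSc.inter hne)
    (fun z => Function.update (scl (z i0)⁻¹ z) i0 (z i0))
    (fun w => scl (w i0) (Function.update w i0 1)) ?_ ?_ ?_ ?_ ?_ ?_
  · intro i
    by_cases h : i = i0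
    · subst h
      simp only [Function.update_self]
      exact (IsPF.coord i0).isRF _
    · simp only [Function.update_of_ne h]
      rcases i with p | q
      · exact (IsPF.coord (Sum.inl p)).isRF _
      · have h5 : IsRF A (fun z : Pt K (π ⊕ ρ) => z (Sum.inr q) / z i0) :=
          ((IsPF.coord (Sum.inr q)).isRF _).div ((IsPF.coord i0).isRF _) h1
        refine h5.congr fun z hz => ?_
        change (z i0)⁻¹ * z (Sum.inr q) = z (Sum.inr q) / z i0
        rw [div_eq_mul_inv, mul_comm]
  · refine regularOn_poly (fun i => ?_) _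
    rcases i with p | q
    · have h5 : (Sum.inl p : π ⊕ ρ) ≠ i0 := by simp [hi0]
      have h6 : (fun w : Pt K (π ⊕ ρ) => scl (w i0) (Function.update w i0 1) (Sum.inl p)) =
          fun w => w (Sum.inl p) := by
        funext w
        change Function.update w i0 1 (Sum.inl p) = _
        rw [Function.update_of_ne h5]
      rw [h6]
      exact IsPF.coord _
    · change IsPF fun w : Pt K (π ⊕ ρ) => w i0 * Function.update w i0 1 (Sum.inr q)
      refine (IsPF.coord _).mul ?_
      by_cases h : (Sum.inr q : π ⊕ ρ) = i0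
      · rw [h]
        simp only [Function.update_self]
        exact IsPF.one
      · simp only [Function.update_of_ne h]
        exact IsPF.coord _
  · intro z hz
    have h5 := h1 z hz
    have h6 : Function.update (Function.update (scl (z i0)⁻¹ z) i0 (z i0)) i0 1 =
        scl (z i0)⁻¹ z := by
      rw [Function.update_idem]
      have h7 : (scl (z i0)⁻¹ z) i0 = 1 := by
        change (z i0)⁻¹ * z i0 = 1
        exact inv_mul_cancel₀ h5
      rw [← h7, Function.update_eq_self]
    refine ⟨?_, ?_⟩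
    · change Function.update (Function.update (scl (z i0)⁻¹ z) i0 (z i0)) i0 1 ∈ A
      rw [h6]
      exact h2 z hz _ (inv_ne_zero h5)
    · change Function.update (scl (z i0)⁻¹ z) i0 (z i0) i0 ≠ 0
      rw [Function.update_self]
      exact h5
  · rintro w ⟨h5, h6⟩
    exact h2 _ h5 _ h6
  · intro z hz
    have h5 := h1 z hz
    have h6 : Function.update (Function.update (scl (z i0)⁻¹ z) i0 (z i0)) i0 1 =
        scl (z i0)⁻¹ z := by
      rw [Function.update_idem]
      have h7 : (scl (z i0)⁻¹ z) i0 = 1 := by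
        change (z i0)⁻¹ * z i0 = 1
        exact inv_mul_cancel₀ h5
      rw [← h7, Function.update_eq_self]
    simp only [h6, Function.update_self]
    rw [scl_scl, mul_inv_cancel₀ h5, scl_one]
  · rintro w ⟨h5, h6⟩
    have h7 : (scl (w i0) (Function.update w i0 1)) i0 = w i0 := by
      change w i0 * Function.update w i0 1 (Sum.inr r) = w i0
      rw [← hi0, Function.update_self, mul_one]
    simp only [h7]
    rw [scl_scl, inv_mul_cancel₀ h6, scl_one, Function.update_idem, Function.update_eq_self]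

end scale

/-! ### cones -/

section cone

variable {K : Type} [Field K] {T : ℕ} {π : Type}

/-- scaling of the leading coefficients -/
noncomputable def scL (X : Sys T) (μ : Fin T → AlgebraicClosure K) (v : Pt K (π ⊕ (X.ι ⊕ X.Λ))) :
    Pt K (π ⊕ (X.ι ⊕ X.Λ)) :=
  Sum.elim (fun p => v (Sum.inl p)) (Sum.elim (fun i => v (Sum.inr (Sum.inl i)))
    (fun l => μ (X.τ l) * v (Sum.inr (Sum.inr l))))

/-- A condition which is invariant under the scaling of the leading coefficients. -/
def Cone (X : Sys T) (V : Set (Pt K (π ⊕ (X.ι ⊕ X.Λ)))) : Prop :=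
  ∀ v ∈ V, ∀ μ : Fin T → AlgebraicClosure K, (∀ t, μ t ≠ 0) → scL X μ v ∈ V

theorem cone_inter (X : Sys T) {V W : Set (Pt K (π ⊕ (X.ι ⊕ X.Λ)))} (hV : Cone X V)
    (hW : Cone X W) : Cone X (V ∩ W) :=
  fun v hv μ hμ => ⟨hV v hv.1 μ hμ, hW v hv.2 μ hμ⟩

/-- a condition on the origin -/
theorem cone_origin (X : Sys T) (P : (X.ι → AlgebraicClosure K) → Prop) :
    Cone X ({v | P fun i => v (Sum.inr (Sum.inl i))} : Set (Pt K (π ⊕ (X.ι ⊕ X.Λ)))) :=
  fun _ hv _ _ => hv

theorem cone_V0 (X : Sys T) {V : Set (Pt K (π ⊕ (X.ι ⊕ X.Λ)))} (hV : Cone X V) :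
    Cone X (V0 X V) := by
  intro v hv μ hμ
  have h := hV _ hv μ hμ
  change (Sum.elim (fun p => scL X μ v (Sum.inl p)) (Sum.elim (fun _ => 0)
    (fun l => scL X μ v (Sum.inr (Sum.inr l)))) : Pt K (π ⊕ (X.ι ⊕ X.Λ))) ∈ V
  exact h

variable {X Y : Sys T} (p : Piv X Y)

theorem cone_pull {V : Set (Pt K (π ⊕ (X.ι ⊕ X.Λ)))} (hV : Cone X V) : Cone Y (pull p V) := by
  rintro v ⟨hv, hv'⟩ μ hμ
  refine ⟨hv, ?_⟩
  have h1 : Ph p (scL Y μ v) = scL X μ (Ph p v) := by
    funext i
    rcases i with a | i | l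
    · rfl
    · rfl
    · change (∑ m, ev (x0 p v) (p.c l m) * (μ (Y.τ m) * v (Sum.inr (Sum.inr m)))) /
        (ev (fun q => v (Sum.inl (Sum.inr q))) p.u) ^ p.r l = μ (X.τ l) *
        ((∑ m, ev (x0 p v) (p.c l m) * v (Sum.inr (Sum.inr m))) /
          (ev (fun q => v (Sum.inl (Sum.inr q))) p.u) ^ p.r l)
      rw [← mul_div_assoc, Finset.mul_sum]
      congr 1
      refine Finset.sum_congr rfl fun m _ => ?_
      by_cases hm : Y.τ m = X.τ l
      · rw [hm]
        ring
      · rw [p.c0 l m hm, map_zero]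
        ring
  rw [h1]
  exact hV _ hv' μ hμ

variable {R : Type} [CommRing R] (M : Meas K R) [Fintype π]

/-- The factor `𝕃 - 1`. -/
theorem mm_gm (v : R) (X : Sys T) (e : Fin T → ℕ)
    (he : ∀ l, (X.G l).IsHomogeneous (e (X.τ l))) {V : Set (Pt K (π ⊕ (X.ι ⊕ X.Λ)))}
    (hV : Constr V) (i : X.ι) (h0 : ∀ w ∈ V, w (Sum.inr (Sum.inl i)) ≠ 0)
    (hs : ∀ w ∈ V, ∀ c : AlgebraicClosure K, c ≠ 0 → (Sum.elim (fun p => w (Sum.inl p))
      (Sum.elim (fun j => c * w (Sum.inr (Sum.inl j)))
        (fun l => c ^ e (X.τ l) * w (Sum.inr (Sum.inr l)))) : Pt K (π ⊕ (X.ι ⊕ X.Λ))) ∈ V)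
    (α : Fin T → ℕ) : mm M v X V α = (M.L - 1) *
      mm M v X (V ∩ {w | w (Sum.inr (Sum.inl i)) = 1}) α := by
  unfold mm
  set N := ∑ t, α t
  have h1 := chi_scale M (SS X V α N) (constr_SS X hV α N) ((i, 0) : X.ι × Fin (N + 1))
    (fun z hz => h0 _ hz.2) (by
      rintro z ⟨hz1, hz2⟩ c hc
      have h3 : (ar fun q => scl c z (Sum.inr q)) = fun i => PowerSeries.C c *
          ar (fun q => z (Sum.inr q)) i := by
        funext i
        ext j
        rw [coeff_ar, PowerSeries.coeff_C_mul, coeff_ar]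
        split_ifs
        · rfl
        · rw [mul_zero]
      have h4 : ∀ l, ev (ar fun q => scl c z (Sum.inr q)) (X.G l) =
          PowerSeries.C (c ^ e (X.τ l)) * ev (ar fun q => z (Sum.inr q)) (X.G l) := by
        intro l
        rw [h3, hom_ev _ _ (he l), map_pow]
      refine ⟨fun l => ?_, ?_⟩
      · rw [h4 l]
        exact vn_mul _ (hz1 l)
      · have h5 := hs _ hz2 c hc
        have h6 : dat X α (scl c z) = (Sum.elim (fun p => dat X α z (Sum.inl p))
            (Sum.elim (fun j => c * dat X α z (Sum.inr (Sum.inl j)))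
              (fun l => c ^ e (X.τ l) * dat X α z (Sum.inr (Sum.inr l)))) :
              Pt K (π ⊕ (X.ι ⊕ X.Λ))) := by
          funext j
          rcases j with p | j | l
          · rfl
          · rfl
          · change PowerSeries.coeff (α (X.τ l)) (ev (ar fun q => scl c z (Sum.inr q)) (X.G l)) =
              c ^ e (X.τ l) * PowerSeries.coeff (α (X.τ l))
                (ev (ar fun q => z (Sum.inr q)) (X.G l))
            rw [h4 l, PowerSeries.coeff_C_mul]
        rw [h6]
        exact h5)
  have h2 : SS X V α N ∩ {z | z (Sum.inr (i, 0)) = 1} =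
      SS X (V ∩ {w | w (Sum.inr (Sum.inl i)) = 1}) α N := by
    ext z
    constructor
    · rintro ⟨⟨h3, h4⟩, h5⟩
      exact ⟨h3, h4, h5⟩
    · rintro ⟨h3, h4, h5⟩
      exact ⟨⟨h3, h4⟩, h5⟩
  rw [h1, h2, mul_assoc]

end cone

end Pool.Agent.TH192.MU
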