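import Pool.Agent.H628R4.TP.Defs

set_option autoImplicit false
set_option linter.unusedSectionVars false
set_option linter.unusedVariables false

/-! # The root `-1 / g` of the b-functions of a `g`-th power -/

namespace Pool.Agent.TH192.MU

open MvPolynomial Pool.Agent.H628R4.TP

variable {σ : Type} (F : MvPolynomial σ ℂ)

/-- the families `R n = F ^ (n - N) P(n)` -/
def Fam (R : ℕ → MvPolynomial σ ℂ) : Prop :=
  ∃ (N : ℕ) (P : Polynomial (MvPolynomial σ ℂ)), ∀ n : ℕ,
    F ^ N * R n = F ^ n * P.eval (C (n : ℂ))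

theorem Fam.up {F : MvPolynomial σ ℂ} {R : ℕ → MvPolynomial σ ℂ} {N : ℕ}
    {P : Polynomial (MvPolynomial σ ℂ)}
    (h : ∀ n : ℕ, F ^ N * R n = F ^ n * P.eval (C (n : ℂ))) (M : ℕ) :
    ∀ n : ℕ, F ^ (M + N) * R n = F ^ n * (Polynomial.C (F ^ M) * P).eval (C (n : ℂ)) := by
  intro n
  rw [Polynomial.eval_mul, Polynomial.eval_C, pow_add, mul_assoc, h n]
  ring

theorem fam_add {R R' : ℕ → MvPolynomial σ ℂ} (h : Fam F R) (h' : Fam F R') :
    Fam F fun n => R n + R' n := by
  obtain ⟨N, P, hP⟩ := h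
  obtain ⟨N', P', hP'⟩ := h'
  refine ⟨N' + N, Polynomial.C (F ^ N') * P + Polynomial.C (F ^ N) * P', fun n => ?_⟩
  rw [Polynomial.eval_add, mul_add, mul_add, ← Fam.up hP N' n, ← Fam.up hP' N n, add_comm N' N]

theorem fam_smul {R : ℕ → MvPolynomial σ ℂ} (h : Fam F R) (p : MvPolynomial σ ℂ) :
    Fam F fun n => p * R n := by
  obtain ⟨N, P, hP⟩ := h
  refine ⟨N, Polynomial.C p * P, fun n => ?_⟩
  rw [Polynomial.eval_mul, Polynomial.eval_C, mul_left_comm, hP n]
  ring

theorem pder_eval (i : σ) (P : Polynomial (MvPolynomial σ ℂ)) :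
    ∃ P' : Polynomial (MvPolynomial σ ℂ), ∀ z : ℂ,
      pderiv i (P.eval (C z)) = P'.eval (C z) := by
  induction P using Polynomial.induction_on' with
  | add p q hp hq =>
    obtain ⟨p', hp'⟩ := hp
    obtain ⟨q', hq'⟩ := hq
    exact ⟨p' + q', fun z => by rw [Polynomial.eval_add, map_add, hp', hq', Polynomial.eval_add]⟩
  | monomial k m =>
    refine ⟨Polynomial.monomial k (pderiv i m), fun z => ?_⟩
    rw [Polynomial.eval_monomial, Polynomial.eval_monomial, ← C_pow, mul_comm, pderiv_C_mul,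
      mul_comm]

theorem fam_pder {R : ℕ → MvPolynomial σ ℂ} (h : Fam F R) (i : σ) :
    Fam F fun n => pderiv i (R n) := by
  obtain ⟨N, P, hP⟩ := h
  obtain ⟨P', hP'⟩ := pder_eval i P
  refine ⟨N + 1, (Polynomial.X - Polynomial.C (C (N : ℂ))) * Polynomial.C (pderiv i F) * P +
    Polynomial.C F * P', fun n => ?_⟩
  have h1 := congrArg (pderiv i) (hP n)
  rw [Derivation.leibniz, Derivation.leibniz, hP' n, Derivation.leibniz_pow,
    Derivation.leibniz_pow] at h1
  simp only [smul_eq_mul, nsmul_eq_mul] at h1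
  have h2 : ∀ k : ℕ, F * ((k : MvPolynomial σ ℂ) * F ^ (k - 1)) = (k : MvPolynomial σ ℂ) * F ^ k := by
    intro k
    rcases k with _ | k
    · simp
    · rw [Nat.add_sub_cancel, pow_succ]
      ring
  have h3 : ∀ k : ℕ, (C (k : ℂ) : MvPolynomial σ ℂ) = (k : MvPolynomial σ ℂ) := fun k =>
    map_natCast C k
  simp only [Polynomial.eval_add, Polynomial.eval_mul, Polynomial.eval_sub, Polynomial.eval_X,
    Polynomial.eval_C]
  rw [h3, h3]
  have h4 := hP n
  rw [h3] at h1 h4
  have e1 := h2 n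
  have e2 := h2 N
  have h5 : F * (F ^ N * pderiv i (R n)) = F * (F ^ n * Polynomial.eval (↑n) P') +
      Polynomial.eval (↑n) P * (↑n * F ^ n * pderiv i F) -
      R n * (↑N * F ^ N * pderiv i F) := by
    rw [← e1, ← e2]
    linear_combination F * h1
  rw [pow_succ]
  linear_combination h5 - (N : MvPolynomial σ ℂ) * pderiv i F * h4

theorem fam_weyl (Q : Module.End ℂ (MvPolynomial σ ℂ)) (hQ : Q ∈ weylS σ) :
    ∀ R : ℕ → MvPolynomial σ ℂ, Fam F R → Fam F fun n => Q (R n) := by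
  unfold weylS at hQ
  induction hQ using Algebra.adjoin_induction with
  | mem x hx =>
    intro R hR
    rcases hx with ⟨i, rfl⟩ | ⟨i, rfl⟩
    · exact fam_smul F hR (X i)
    · exact fam_pder F hR i
  | algebraMap r =>
    intro R hR
    have h1 := fam_smul F hR (C r)
    refine cast ?_ h1
    congr 1
    funext n
    rw [Module.algebraMap_end_apply, MvPolynomial.smul_eq_C_mul]
  | add x y _ _ hx hy =>
    intro R hR
    exact fam_add F (hx R hR) (hy R hR)
  | mul x y _ _ hx hy =>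
    intro R hR
    exact hx _ (hy R hR)

variable {F}

/-- **`-1 / g` is a root of the b-functions of `F ^ g`.** -/
theorem root_pow (hF0 : F ≠ 0) (hFu : ¬ IsUnit F) (g : ℕ) (hg : 0 < g) (b : Polynomial ℂ)
    (hb : IsBFunction (F ^ g) b) : b.eval (-1 / (g : ℂ)) = 0 := by
  classical
  obtain ⟨P, hP⟩ := hb
  have h1 : ∀ m : ℕ, Fam F fun n => (P m : Module.End ℂ (MvPolynomial σ ℂ)) (F ^ n) := fun m =>
    fam_weyl F _ (P m).2 _ ⟨0, 1, fun n => by rw [pow_zero, Polynomial.eval_one, one_mul, mul_one]⟩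
  choose N G hG using h1
  set M := ∑ m ∈ P.support, N m with hM
  -- a common exponent
  obtain ⟨G', h2⟩ : ∃ G' : ℕ → Polynomial (MvPolynomial σ ℂ), ∀ m ∈ P.support, ∀ n : ℕ,
      F ^ M * (P m : Module.End ℂ (MvPolynomial σ ℂ)) (F ^ n) =
        F ^ n * (G' m).eval (C (n : ℂ)) := by
    refine ⟨fun m => Polynomial.C (F ^ (M - N m)) * G m, fun m hm n => ?_⟩
    have h3 : N m ≤ M := Finset.single_le_sum (fun _ _ => Nat.zero_le _) hm
    have h4 := Fam.up (hG m) (M - N m) n
    rwa [Nat.sub_add_cancel h3] at h4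
  -- the identity
  have hid : ∀ s : ℕ, F ^ M * C (b.eval (s : ℂ)) =
      F ^ g * ∑ m ∈ P.support, C ((s : ℂ) ^ m) * (G' m).eval (C ((g * (s + 1) : ℕ) : ℂ)) := by
    intro s
    have h3 := hP s
    rw [Finsupp.sum] at h3
    have h4 : F ^ (g * s) ≠ 0 := pow_ne_zero _ hF0
    refine mul_left_cancel₀ h4 ?_
    have h5 : F ^ (g * s) * (F ^ M * C (b.eval (s : ℂ))) =
        F ^ M * (C (b.eval (s : ℂ)) * (F ^ g) ^ s) := by
      rw [← pow_mul]
      ring
    rw [h5, h3, Finset.mul_sum, ← mul_assoc, ← pow_add,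
      show g * s + g = g * (s + 1) by ring, Finset.mul_sum]
    refine Finset.sum_congr rfl fun m hm => ?_
    rw [MvPolynomial.smul_eq_C_mul, ← pow_mul, mul_left_comm, h2 m hm]
    ring
  -- as polynomials
  have hpoly : Polynomial.C (F ^ M) * b.map (C : ℂ →+* MvPolynomial σ ℂ) =
      Polynomial.C (F ^ g) * ∑ m ∈ P.support, Polynomial.X ^ m *
        (G' m).comp (Polynomial.C (C (g : ℂ)) * (Polynomial.X + 1)) := by
    refine Polynomial.eq_of_infinite_eval_eq _ _ ?_
    have h3 : Set.Infinite (Set.range fun s : ℕ => (C (s : ℂ) : MvPolynomial σ ℂ)) := by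
      refine Set.infinite_range_of_injective fun s t h => ?_
      have := C_injective σ ℂ h
      exact_mod_cast this
    refine h3.mono ?_
    rintro _ ⟨s, rfl⟩
    change Polynomial.eval (C (s : ℂ)) _ = Polynomial.eval (C (s : ℂ)) _
    rw [Polynomial.eval_mul, Polynomial.eval_C, Polynomial.eval_map, Polynomial.eval₂_at_apply,
      Polynomial.eval_mul, Polynomial.eval_C, Polynomial.eval_finsetSum, hid s]
    congr 1
    refine Finset.sum_congr rfl fun m _ => ?_
    rw [Polynomial.eval_mul, Polynomial.eval_pow, Polynomial.eval_X, Polynomial.eval_comp,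
      Polynomial.eval_mul, Polynomial.eval_C, Polynomial.eval_add, Polynomial.eval_X,
      Polynomial.eval_one, C_pow]
    congr 2
    push_cast
    rw [map_mul, map_add, map_one]
  have hev := congrArg (Polynomial.eval (C (-1 / (g : ℂ)) : MvPolynomial σ ℂ)) hpoly
  rw [Polynomial.eval_mul, Polynomial.eval_C, Polynomial.eval_map, Polynomial.eval₂_at_apply,
    Polynomial.eval_mul, Polynomial.eval_C, Polynomial.eval_finsetSum] at hev
  have hg0 : (g : ℂ) ≠ 0 := by exact_mod_cast hg.ne'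
  have h6 : ∀ m ∈ P.support, F ^ (g - 1) * Polynomial.eval (C (-1 / (g : ℂ)) : MvPolynomial σ ℂ)
      (Polynomial.X ^ m * (G' m).comp (Polynomial.C (C (g : ℂ)) * (Polynomial.X + 1))) =
      F ^ M * (C ((-1 / (g : ℂ)) ^ m) *
        (P m : Module.End ℂ (MvPolynomial σ ℂ)) (F ^ (g - 1))) := by
    intro m hm
    rw [Polynomial.eval_mul, Polynomial.eval_pow, Polynomial.eval_X, Polynomial.eval_comp,
      Polynomial.eval_mul, Polynomial.eval_C, Polynomial.eval_add, Polynomial.eval_X,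
      Polynomial.eval_one]
    have h7 : (C (g : ℂ) * (C (-1 / (g : ℂ)) + 1) : MvPolynomial σ ℂ) = C ((g - 1 : ℕ) : ℂ) := by
      rw [show (1 : MvPolynomial σ ℂ) = C 1 from (map_one C).symm, ← map_add, ← map_mul]
      congr 1
      rw [Nat.cast_sub hg]
      field_simp
      push_cast
      ring
    rw [h7, mul_left_comm (F ^ M), h2 m hm, C_pow]
    ring
  have h8 : F ^ M * C (b.eval (-1 / (g : ℂ))) = F ^ M * (F * ∑ m ∈ P.support,
      (C ((-1 / (g : ℂ)) ^ m) * (P m : Module.End ℂ (MvPolynomial σ ℂ)) (F ^ (g - 1)))) := by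
    rw [hev]
    have h9 : F ^ g = F * F ^ (g - 1) := by
      rw [← pow_succ', Nat.sub_add_cancel hg]
    rw [h9, mul_assoc, Finset.mul_sum, Finset.sum_congr rfl h6, ← Finset.mul_sum]
    ring
  have h10 := mul_left_cancel₀ (pow_ne_zero _ hF0) h8
  by_contra hne
  apply hFu
  refine isUnit_of_dvd_unit (Dvd.intro _ h10.symm) ?_
  exact (isUnit_iff_ne_zero.2 hne).map C

end Pool.Agent.TH192.MU
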