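import Pool.Agent.TH192.MU.TwZ
import Pool.Agent.TH192.MU.RootP

set_option autoImplicit false
set_option linter.unusedSectionVars false
set_option linter.unusedVariables false

/-! # Powers of polynomials of weighted degree one -/

namespace Pool.Agent.TH192.MU

open MvPolynomial Pool.Agent.W428.MOT Pool.Agent.H628R4.TP Pool.Agent.TH192.DT
  Pool.Agent.TH192.MT

theorem isTop_unique {R : Type} [CommRing R] [IsDomain R] {E : MK ℂ →+* R} {ε : R →+* ℂ}
    {Zm : PowerSeries (MK ℂ)} {Z Z' : RatFunc ℂ} (h : IsTopZeta E ε Zm Z)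
    (h' : IsTopZeta E ε Zm Z') : Z = Z' := by
  have h5 : Z.num * Z'.denom = Z'.num * Z.denom := by
    refine poly_eq_of_nat fun s hs => ?_
    obtain ⟨c, hc, hc'⟩ := h s hs
    obtain ⟨d, hd, hd'⟩ := h' s hs
    have h6 := specAt_unique hc hd
    subst h6
    rw [Polynomial.eval_mul, Polynomial.eval_mul, hc', hd']
    ring
  have h6 : algebraMap (Polynomial ℂ) (RatFunc ℂ) Z.denom ≠ 0 := by
    rw [Ne, map_eq_zero_iff _ (RatFunc.algebraMap_injective ℂ)]
    exact Z.denom_ne_zero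
  have h7 : algebraMap (Polynomial ℂ) (RatFunc ℂ) Z'.denom ≠ 0 := by
    rw [Ne, map_eq_zero_iff _ (RatFunc.algebraMap_injective ℂ)]
    exact Z'.denom_ne_zero
  rw [← RatFunc.num_div_denom Z, ← RatFunc.num_div_denom Z', div_eq_div_iff h6 h7, ← map_mul,
    ← map_mul, h5]

/-- the zeta functions of the covers for a power of a polynomial of weighted degree one -/
theorem zetaC_pow {σ : Type} [Fintype σ] (F : MvPolynomial σ ℂ) (c : σ → ℤ) (h : Hom1 F c)
    (g : ℕ) (hg : 0 < g) (k : ℕ) (hk : 0 < k) :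
    zetaC (F ^ g) k = PowerSeries.C (Nat.gcd k g : MK ℂ) * zetaC (F ^ g) 1 := by
  obtain ⟨M, hL, hM⟩ := exists_meas ℂ
  have h1 := fun d => chi_JetC M h hg hk d
  ext d
  rw [PowerSeries.coeff_C_mul]
  unfold zetaC
  rw [PowerSeries.coeff_mk, PowerSeries.coeff_mk]
  split_ifs with h0
  · rw [mul_zero]
  · rw [← hM, ← hM, h1 d, mul_assoc]

/-- the weights -/
theorem hom1_of_weight {σ : Type} [Fintype σ] (F : MvPolynomial σ ℂ) (c : σ → ℤ)
    (hc : ∀ m ∈ F.support, ∑ i, (m i : ℤ) * c i = 1) : Hom1 F c := by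
  intro μ hμ x
  rw [aeval_def, aeval_def, eval₂_eq', eval₂_eq', Finset.mul_sum]
  refine Finset.sum_congr rfl fun m hm => ?_
  have h1 : (∏ i, (PowerSeries.C (μ ^ c i) * x i) ^ m i : PowerSeries (AlgebraicClosure ℂ)) =
      PowerSeries.C μ * ∏ i, x i ^ m i := by
    have h2 : ∀ i, (PowerSeries.C (μ ^ c i) * x i : PowerSeries (AlgebraicClosure ℂ)) ^ m i =
        PowerSeries.C (μ ^ ((m i : ℤ) * c i)) * x i ^ m i := by
      intro i
      rw [mul_pow, ← map_pow]
      congr 2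
      rw [← zpow_natCast, ← zpow_mul, mul_comm]
    rw [Finset.prod_congr rfl fun i _ => h2 i, Finset.prod_mul_distrib, ← map_prod]
    congr 2
    have h4 : ∀ s : Finset σ, ∏ i ∈ s, μ ^ ((m i : ℤ) * c i) = μ ^ ∑ i ∈ s, (m i : ℤ) * c i := by
      intro s
      classical
      induction s using Finset.induction_on with
      | empty => simp
      | insert i s hi ih => rw [Finset.prod_insert hi, Finset.sum_insert hi, ih, zpow_add₀ hμ]
    rw [h4, hc m hm, zpow_one]
  rw [h1]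
  ring

theorem not_unit_of_weight {σ : Type} [Fintype σ] (F : MvPolynomial σ ℂ) (c : σ → ℤ)
    (hc : ∀ m ∈ F.support, ∑ i, (m i : ℤ) * c i = 1) : ¬ IsUnit F := by
  intro h
  obtain ⟨a, ha, rfl⟩ := MvPolynomial.isUnit_iff_eq_C_of_isReduced.1 h
  have h1 : (0 : σ →₀ ℕ) ∈ (C a : MvPolynomial σ ℂ).support := by
    rw [mem_support_iff, coeff_zero_C]
    exact ha.ne_zero
  have h2 := hc 0 h1
  simp at h2

/-- **Powers of polynomials of weighted degree one.** -/
theorem holo_main {σ : Type} [Fintype σ] (F : MvPolynomial σ ℂ) (hF : F ≠ 0) (c : σ → ℤ)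
    (hc : ∀ m ∈ F.support, ∑ i, (m i : ℤ) * c i = 1) (g : ℕ) (hg : 0 < g) (e : ℕ) (he : 0 < e)
    {R : Type} [CommRing R] [IsDomain R] (E : MK ℂ →+* R) (ε : R →+* ℂ) (Z : RatFunc ℂ)
    (hZ : IsTwistedTop E ε (F ^ g) e Z) :
    (¬ e ∣ g → Z = 0) ∧ (e ∣ g → IsTopZeta E ε (zetaC (F ^ g) 1) Z) ∧
    (e ∣ g → ∃ r : ℚ, e ∣ r.den ∧ ∀ b : Polynomial ℂ, IsBFunction (F ^ g) b →
      b.eval (r : ℂ) = 0) := by
  obtain ⟨Y, hY1, hY2⟩ := hZ
  have hY : ∀ k, k ∣ e → Y k = (Nat.gcd k g : RatFunc ℂ) * Y 1 := by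
    intro k hk
    have hk0 : 0 < k := Nat.pos_of_dvd_of_pos hk he
    have h1 := hY1 k hk
    rw [zetaC_pow F c (hom1_of_weight F c hc) g hg k hk0] at h1
    exact isTop_unique h1 (isTop_mul (hY1 1 (one_dvd e)) _)
  have hsum : ∑ q ∈ e.divisorsAntidiagonal,
      ((ArithmeticFunction.moebius q.1 : ℤ) : RatFunc ℂ) * Y q.2 =
      (if e ∣ g then (Nat.totient e : RatFunc ℂ) else 0) * Y 1 := by
    have h2 := congrArg (fun n : ℤ => (n : RatFunc ℂ)) (mob_gcd g e he)
    simp only [Int.cast_sum, Int.cast_mul, Int.cast_natCast, Int.cast_ite, Int.cast_zero] at h2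
    rw [← h2, Finset.sum_mul]
    refine Finset.sum_congr rfl fun q hq => ?_
    have h3 : q.2 ∣ e := Dvd.intro_left q.1 (Nat.mem_divisorsAntidiagonal.1 hq).1
    rw [hY _ h3, mul_assoc]
  have hφ : (Nat.totient e : RatFunc ℂ) ≠ 0 := by
    have h2 : 0 < Nat.totient e := Nat.totient_pos.2 he
    exact_mod_cast h2.ne'
  rw [hsum] at hY2
  refine ⟨fun h => ?_, fun h => ?_, fun h => ?_⟩
  · rw [if_neg h, zero_mul] at hY2
    exact (mul_eq_zero.1 hY2).resolve_left hφ
  · rw [if_pos h] at hY2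
    rw [mul_left_cancel₀ hφ hY2]
    exact hY1 1 (one_dvd e)
  · refine ⟨-1 / (g : ℚ), ?_, fun b hb => ?_⟩
    · have h1 : (-1 / (g : ℚ)).den = g := by
        rw [neg_div, Rat.neg_den, one_div, Rat.inv_natCast_den_of_pos hg]
      rw [h1]
      exact h
    · have h1 := root_pow hF (not_unit_of_weight F c hc) g hg b hb
      rw [← h1]
      congr 1
      push_cast
      rfl

end Pool.Agent.TH192.MU
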