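import Pool.Agent.TH192.MT.JDefs

set_option autoImplicit false

/-! # The topological zeta function, from the motivic zeta function -/

namespace Pool.Agent.TH192.MU

open Pool.Agent.W428.MOT Pool.Agent.TH192.MT

/-- `c` is the value under `ε` of the value of the rational power series `Z` at `T = u ^ (-s)`: there are
polynomials `P`, `Q` with `Q Z = P` and `Q(u ^ (-s)) ≠ 0`, and `P(u ^ (-s)) / Q(u ^ (-s)) = x / y` where
`ε y ≠ 0` and `ε x / ε y = c`. -/
def SpecAt {R : Type} [CommRing R] (u : Rˣ) (ε : R →+* ℂ) (Z : PowerSeries R) (s : ℕ) (c : ℂ) :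
    Prop :=
  ∃ (P Q : Polynomial R) (x y : R), (Q : PowerSeries R) * Z = (P : PowerSeries R) ∧
    Q.eval (((u⁻¹) ^ s : Rˣ) : R) ≠ 0 ∧
    P.eval (((u⁻¹) ^ s : Rˣ) : R) * y = x * Q.eval (((u⁻¹) ^ s : Rˣ) : R) ∧
    ε y ≠ 0 ∧ ε x = c * ε y

/-- The topological zeta function `Z` of the motivic zeta function `Zm`: the rational function with
`Z(s) = ε(Zm(𝕃 ^ (-s)))` for `s = 1, 2, 3, …`, where `Zm(𝕃 ^ (-s))` is computed in the fraction field
of `R`, after the realisation `E`, and lies in the localisation of `R` at the kernel of `ε`. If `R` is a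
domain, `E 𝕃 ≠ 1`, and `ε ∘ E` is the Euler characteristic, it is the topological zeta function of
Denef and Loeser. -/
def IsTopZeta {R : Type} [CommRing R] (E : MK ℂ →+* R) (ε : R →+* ℂ) (Zm : PowerSeries (MK ℂ))
    (Z : RatFunc ℂ) : Prop :=
  ∀ s : ℕ, 0 < s → ∃ c, SpecAt (Units.map (E : MK ℂ →* R) (Lu ℂ)) ε (PowerSeries.map E Zm) s c ∧
    Z.num.eval (s : ℂ) = c * Z.denom.eval (s : ℂ)

/-- The motivic zeta function `∑_{d ≥ 0} [X_d] 𝕃 ^ (-n d) T ^ d` of the ideal generated by the `f j`, where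
`X_d` is the set of the `d`-jets `φ` of `𝔸 ^ n` on which the ideal has the order `d`. -/
noncomputable def zetaId {J σ : Type} [Fintype σ] (f : J → MvPolynomial σ ℂ) :
    PowerSeries (MK ℂ) :=
  PowerSeries.mk fun d => algebraMap (K0 ℂ) (MK ℂ) (cls (σ × Fin (d + 1))
    (JetF f Set.univ d)) * (((Lu ℂ) ^ (-((Fintype.card σ * d : ℕ) : ℤ)) : (MK ℂ)ˣ) : MK ℂ)

end Pool.Agent.TH192.MU
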