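import Pool.Agent.TH192.MU.Rec2
import Pool.Agent.TH192.MU.TDefs

set_option autoImplicit false
set_option linter.unusedSectionVars false
set_option linter.unusedVariables false

/-! # The specialisation of a rational power series at `T = 𝕃 ^ (-s)`, and Euler characteristics -/

namespace Pool.Agent.TH192.MU

open Pool.Agent.W428.MOT Pool.Agent.TH192.DT Pool.Agent.TH192.MT

section

variable {R : Type} [CommRing R] [IsDomain R] {u : Rˣ} {ε : R →+* ℂ}

theorem specAt_unique {Z : PowerSeries R} {s : ℕ} {c c' : ℂ} (h : SpecAt u ε Z s c)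
    (h' : SpecAt u ε Z s c') : c = c' := by
  obtain ⟨P, Q, x, y, h1, h2, h3, h4, h5⟩ := h
  obtain ⟨P', Q', x', y', h1', h2', h3', h4', h5'⟩ := h'
  set τ : R := (((u⁻¹) ^ s : Rˣ) : R)
  have h6 : Q' * P = Q * P' := by
    have : ((Q' * P : Polynomial R) : PowerSeries R) = ((Q * P' : Polynomial R) : PowerSeries R) := by
      rw [Polynomial.coe_mul, Polynomial.coe_mul, ← h1, ← h1']
      ring
    exact Polynomial.coe_injective _ this
  have h7 : Q'.eval τ * P.eval τ = Q.eval τ * P'.eval τ := by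
    rw [← Polynomial.eval_mul, h6, Polynomial.eval_mul]
  have h8 : x * y' = x' * y := by
    have h9 : (Q.eval τ * Q'.eval τ) * (x * y' - x' * y) = 0 := by
      linear_combination (-(y' * Q'.eval τ)) * h3 + (y * Q.eval τ) * h3' + (y * y') * h7
    exact sub_eq_zero.1 ((mul_eq_zero.1 h9).resolve_left (mul_ne_zero h2 h2'))
  have h10 : ε x * ε y' = ε x' * ε y := by rw [← map_mul, h8, map_mul]
  rw [h5, h5'] at h10
  have h11 : (ε y * ε y') * (c - c') = 0 := by linear_combination h10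
  exact sub_eq_zero.1 ((mul_eq_zero.1 h11).resolve_left (mul_ne_zero h4 h4'))

theorem specAt_add {Z Z' : PowerSeries R} {s : ℕ} {c c' : ℂ} (h : SpecAt u ε Z s c)
    (h' : SpecAt u ε Z' s c') : SpecAt u ε (Z + Z') s (c + c') := by
  obtain ⟨P, Q, x, y, h1, h2, h3, h4, h5⟩ := h
  obtain ⟨P', Q', x', y', h1', h2', h3', h4', h5'⟩ := h'
  refine ⟨P * Q' + P' * Q, Q * Q', x * y' + x' * y, y * y', ?_, ?_, ?_, ?_, ?_⟩
  · simp only [Polynomial.coe_mul, Polynomial.coe_add]
    rw [← h1, ← h1']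
    ring
  · rw [Polynomial.eval_mul]
    exact mul_ne_zero h2 h2'
  · simp only [Polynomial.eval_mul, Polynomial.eval_add]
    linear_combination (y' * Q'.eval (((u⁻¹) ^ s : Rˣ) : R)) * h3 +
      (y * Q.eval (((u⁻¹) ^ s : Rˣ) : R)) * h3'
  · rw [map_mul]
    exact mul_ne_zero h4 h4'
  · rw [map_add, map_mul, map_mul, map_mul, h5, h5']
    ring

theorem specAt_mul {Z Z' : PowerSeries R} {s : ℕ} {c c' : ℂ} (h : SpecAt u ε Z s c)
    (h' : SpecAt u ε Z' s c') : SpecAt u ε (Z * Z') s (c * c') := by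
  obtain ⟨P, Q, x, y, h1, h2, h3, h4, h5⟩ := h
  obtain ⟨P', Q', x', y', h1', h2', h3', h4', h5'⟩ := h'
  refine ⟨P * P', Q * Q', x * x', y * y', ?_, ?_, ?_, ?_, ?_⟩
  · simp only [Polynomial.coe_mul]
    rw [← h1, ← h1']
    ring
  · rw [Polynomial.eval_mul]
    exact mul_ne_zero h2 h2'
  · simp only [Polynomial.eval_mul]
    linear_combination (P'.eval (((u⁻¹) ^ s : Rˣ) : R) * y') * h3 +
      (x * Q.eval (((u⁻¹) ^ s : Rˣ) : R)) * h3'
  · rw [map_mul]
    exact mul_ne_zero h4 h4'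
  · rw [map_mul, map_mul, h5, h5']
    ring

theorem specAt_C (r : R) (s : ℕ) : SpecAt u ε (PowerSeries.C r) s (ε r) := by
  refine ⟨Polynomial.C r, 1, r, 1, ?_, ?_, ?_, ?_, ?_⟩
  · rw [Polynomial.coe_one, one_mul, Polynomial.coe_C]
  · rw [Polynomial.eval_one]
    exact one_ne_zero
  · rw [Polynomial.eval_C, Polynomial.eval_one]
  · rw [map_one]
    exact one_ne_zero
  · rw [map_one, mul_one]

theorem specAt_X (h1 : ε (u : R) = 1) (s : ℕ) :
    SpecAt u ε (PowerSeries.X : PowerSeries R) s 1 := by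
  refine ⟨Polynomial.X, 1, (((u⁻¹) ^ s : Rˣ) : R), 1, ?_, ?_, ?_, ?_, ?_⟩
  · rw [Polynomial.coe_one, one_mul, Polynomial.coe_X]
  · rw [Polynomial.eval_one]
    exact one_ne_zero
  · rw [Polynomial.eval_X, Polynomial.eval_one]
  · rw [map_one]
    exact one_ne_zero
  · have h2 : ε ((u⁻¹ : Rˣ) : R) = 1 := by
      have h3 : ε ((u⁻¹ : Rˣ) : R) * ε (u : R) = 1 := by
        rw [← map_mul, Units.inv_mul, map_one]
      rwa [h1, mul_one] at h3
    rw [Units.val_pow_eq_pow_val, map_pow, h2, map_one, one_pow, one_mul]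

/-- The geometric series. -/
theorem specAt_geo (h1 : ε (u : R) = 1) (hu : (u : R) ≠ 1) {a b : ℤ} (ha : a < 0) (hb : 0 < b)
    {Z : PowerSeries R}
    (hZ : (1 - PowerSeries.C ((u ^ a : Rˣ) : R) * PowerSeries.X ^ b.toNat) * Z =
      PowerSeries.C ((u : R) - 1)) (s : ℕ) :
    SpecAt u ε Z s (1 / ((b : ℂ) * s - a)) := by
  obtain ⟨k, hk⟩ : ∃ k : ℕ, (k : ℤ) = b * s - a := by
    refine ⟨(b * s - a).toNat, Int.toNat_of_nonneg ?_⟩
    have : 0 ≤ b * s := by positivity
    omega
  have hk0 : 0 < k := by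
    have : 0 ≤ b * s := by positivity
    omega
  have hkc : ((k : ℕ) : ℂ) = (b : ℂ) * s - a := by
    have := congrArg (fun z : ℤ => (z : ℂ)) hk
    push_cast at this
    exact this
  set v : R := ((u⁻¹ : Rˣ) : R) with hv
  have hvu : v * (u : R) = 1 := Units.inv_mul u
  have hq : ((u ^ a : Rˣ) : R) * (v ^ s) ^ b.toNat = v ^ k := by
    have h2 : (u ^ a : Rˣ) * (((u⁻¹) ^ s) ^ b.toNat) = (u⁻¹) ^ k := by
      rw [← pow_mul, ← zpow_natCast, ← zpow_natCast, inv_zpow', inv_zpow', ← zpow_add]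
      congr 1
      rw [hk]
      push_cast
      rw [Int.toNat_of_nonneg hb.le]
      ring
    have h3 := congrArg (fun z : Rˣ => (z : R)) h2
    simp only [Units.val_mul, Units.val_pow_eq_pow_val] at h3
    exact h3
  have hεv : ε v = 1 := by
    have h3 : ε v * ε (u : R) = 1 := by rw [← map_mul, hvu, map_one]
    rwa [h1, mul_one] at h3
  have hgeo : (u : R) ^ k - 1 = ((u : R) - 1) * ∑ i ∈ Finset.range k, (u : R) ^ i :=
    (mul_geom_sum (u : R) k).symm
  have hεy : ε (∑ i ∈ Finset.range k, (u : R) ^ i) = (k : ℂ) := by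
    rw [map_sum]
    simp [h1]
  have hy0 : (∑ i ∈ Finset.range k, (u : R) ^ i) ≠ 0 := by
    intro h
    rw [h, map_zero] at hεy
    exact absurd hεy.symm (by exact_mod_cast hk0.ne')
  have huk : v ^ k * (u : R) ^ k = 1 := by rw [← mul_pow, hvu, one_pow]
  have hne : (1 : R) - v ^ k ≠ 0 := by
    intro h
    have h2 : (u : R) ^ k - 1 = 0 := by linear_combination (u : R) ^ k * h + huk
    rw [hgeo] at h2
    rcases mul_eq_zero.1 h2 with h3 | h3
    · exact hu (sub_eq_zero.1 h3)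
    · exact hy0 h3
  refine ⟨Polynomial.C ((u : R) - 1), 1 - Polynomial.C ((u ^ a : Rˣ) : R) *
    Polynomial.X ^ b.toNat, (u : R) ^ k, ∑ i ∈ Finset.range k, (u : R) ^ i, ?_, ?_, ?_, ?_, ?_⟩
  · rw [Polynomial.coe_C, ← hZ, Polynomial.coe_sub, Polynomial.coe_one, Polynomial.coe_mul,
      Polynomial.coe_C, Polynomial.coe_pow, Polynomial.coe_X]
  · simp only [Polynomial.eval_sub, Polynomial.eval_one, Polynomial.eval_mul, Polynomial.eval_C,
      Polynomial.eval_pow, Polynomial.eval_X, Units.val_pow_eq_pow_val]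
    rw [← hv, hq]
    exact hne
  · simp only [Polynomial.eval_sub, Polynomial.eval_one, Polynomial.eval_mul, Polynomial.eval_C,
      Polynomial.eval_pow, Polynomial.eval_X, Units.val_pow_eq_pow_val]
    rw [← hv, hq]
    linear_combination huk - hgeo
  · rw [hεy]
    exact_mod_cast hk0.ne'
  · rw [hεy, map_pow, h1, one_pow, ← hkc]
    have : (k : ℂ) ≠ 0 := by exact_mod_cast hk0.ne'
    field_simp

/-- the values of a series of the ring `R[T, (u - 1) / (1 - u ^ a T ^ b)]` -/
theorem specAt_ratL {R₀ : Type} [CommRing R₀] (u₀ : R₀ˣ) (E : R₀ →+* R)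
    (hE : E (u₀ : R₀) = (u : R)) (h1 : ε (u : R) = 1) (hu : (u : R) ≠ 1)
    {D : Set (ℤ × ℤ)} (hD : ∀ q ∈ D, q.1 < 0 ∧ 0 < q.2) {Z : PowerSeries R₀}
    (hZ : Z ∈ ratL u₀ D) :
    ∃ g h : Polynomial ℂ, (∀ s₀ : ℂ, h.eval s₀ = 0 → ∃ q ∈ D, s₀ = (q.1 : ℂ) / q.2) ∧
      (∀ s : ℕ, h.eval (s : ℂ) ≠ 0) ∧
      ∀ s : ℕ, ∃ c, SpecAt u ε (PowerSeries.map E Z) s c ∧ g.eval (s : ℂ) = c * h.eval (s : ℂ) := by
  unfold ratL at hZ
  induction hZ using Algebra.adjoin_induction with
  | mem x hx =>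
    rcases hx with rfl | ⟨q, hq, rfl⟩
    · refine ⟨1, 1, fun s₀ h => ?_, fun s => ?_, fun s => ⟨1, ?_, by simp⟩⟩
      · rw [Polynomial.eval_one] at h
        exact absurd h one_ne_zero
      · rw [Polynomial.eval_one]
        exact one_ne_zero
      · rw [PowerSeries.map_X]
        exact specAt_X h1 s
    · obtain ⟨hq1, hq2⟩ := hD q hq
      have hb : (q.2 : ℂ) ≠ 0 := by exact_mod_cast hq2.ne'
      refine ⟨1, Polynomial.C (q.2 : ℂ) * Polynomial.X - Polynomial.C (q.1 : ℂ), fun s₀ h => ?_,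
        fun s => ?_, fun s => ⟨1 / ((q.2 : ℂ) * s - q.1), ?_, ?_⟩⟩
      · simp only [Polynomial.eval_sub, Polynomial.eval_mul, Polynomial.eval_C,
          Polynomial.eval_X] at h
        refine ⟨q, hq, ?_⟩
        rw [eq_div_iff hb]
        linear_combination h
      · simp only [Polynomial.eval_sub, Polynomial.eval_mul, Polynomial.eval_C, Polynomial.eval_X]
        have h2 : (0 : ℤ) < q.2 * s - q.1 := by
          have : 0 ≤ q.2 * (s : ℤ) := by positivity
          omega
        have h3 : ((q.2 * s - q.1 : ℤ) : ℂ) ≠ 0 := by exact_mod_cast h2.ne'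
        push_cast at h3
        exact h3
      · refine specAt_geo h1 hu hq1 hq2 ?_ s
        have h2 := congrArg (PowerSeries.map E) (geoU_mul u₀ q.1 q.2 hq2)
        simp only [map_mul, map_sub, map_one, PowerSeries.map_C, map_pow, PowerSeries.map_X] at h2
        have h3 : E ((u₀ ^ q.1 : R₀ˣ) : R₀) = ((u ^ q.1 : Rˣ) : R) := by
          have h4 : Units.map (E : R₀ →* R) u₀ = u := Units.ext hE
          rw [← h4, ← map_zpow]
          rfl
        rw [h3] at h2
        rw [map_mul, PowerSeries.map_C, map_sub, hE, map_one]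
        linear_combination (PowerSeries.C ((u : R) - 1)) * h2
      · simp only [Polynomial.eval_one, Polynomial.eval_sub, Polynomial.eval_mul,
          Polynomial.eval_C, Polynomial.eval_X]
        have h2 : (0 : ℤ) < q.2 * s - q.1 := by
          have : 0 ≤ q.2 * (s : ℤ) := by positivity
          omega
        have h3 : ((q.2 * s - q.1 : ℤ) : ℂ) ≠ 0 := by exact_mod_cast h2.ne'
        push_cast at h3
        rw [one_div, inv_mul_cancel₀ h3]
  | algebraMap r =>
    refine ⟨Polynomial.C (ε (E r)), 1, fun s₀ h => ?_, fun s => ?_, fun s => ⟨ε (E r), ?_, by simp⟩⟩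
    · rw [Polynomial.eval_one] at h
      exact absurd h one_ne_zero
    · rw [Polynomial.eval_one]
      exact one_ne_zero
    · have h2 : PowerSeries.map E (algebraMap R₀ (PowerSeries R₀) r) = PowerSeries.C (E r) := by
        change PowerSeries.map E (PowerSeries.C r) = _
        rw [PowerSeries.map_C]
      rw [h2]
      exact specAt_C _ _
  | add x y hx hy ihx ihy =>
    obtain ⟨g, h, h2, h3, h4⟩ := ihx
    obtain ⟨g', h', h2', h3', h4'⟩ := ihy
    refine ⟨g * h' + g' * h, h * h', fun s₀ h5 => ?_, fun s => ?_, fun s => ?_⟩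
    · rw [Polynomial.eval_mul] at h5
      rcases mul_eq_zero.1 h5 with h6 | h6
      · exact h2 _ h6
      · exact h2' _ h6
    · rw [Polynomial.eval_mul]
      exact mul_ne_zero (h3 s) (h3' s)
    · obtain ⟨c, hc, hc'⟩ := h4 s
      obtain ⟨d, hd, hd'⟩ := h4' s
      refine ⟨c + d, ?_, ?_⟩
      · rw [map_add]
        exact specAt_add hc hd
      · simp only [Polynomial.eval_add, Polynomial.eval_mul, hc', hd']
        ring
  | mul x y hx hy ihx ihy =>
    obtain ⟨g, h, h2, h3, h4⟩ := ihx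
    obtain ⟨g', h', h2', h3', h4'⟩ := ihy
    refine ⟨g * g', h * h', fun s₀ h5 => ?_, fun s => ?_, fun s => ?_⟩
    · rw [Polynomial.eval_mul] at h5
      rcases mul_eq_zero.1 h5 with h6 | h6
      · exact h2 _ h6
      · exact h2' _ h6
    · rw [Polynomial.eval_mul]
      exact mul_ne_zero (h3 s) (h3' s)
    · obtain ⟨c, hc, hc'⟩ := h4 s
      obtain ⟨d, hd, hd'⟩ := h4' s
      refine ⟨c * d, ?_, ?_⟩
      · rw [map_mul]
        exact specAt_mul hc hd
      · simp only [Polynomial.eval_mul, hc', hd']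
        ring

end

end Pool.Agent.TH192.MU
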