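import Pool.Agent.TH192.MU.YS
import Pool.Agent.TH192.MU.Spec
import Pool.Agent.TH192.MT.IdJet

set_option autoImplicit false
set_option linter.unusedSectionVars false
set_option linter.unusedVariables false

/-! # Topological zeta functions -/

namespace Pool.Agent.TH192.MU

open MvPolynomial Matrix Pool.Agent.W428.MOT Pool.Agent.TH192.DT Pool.Agent.TH192.MT
  Pool.Agent.TH192.PA Pool.Agent.Helper929 Pool.Agent.W574.SM

theorem poly_eq_of_nat {f g : Polynomial ℂ} (h : ∀ s : ℕ, 0 < s → f.eval (s : ℂ) = g.eval (s : ℂ)) :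
    f = g := by
  refine Polynomial.eq_of_infinite_eval_eq f g ?_
  have h1 : Set.Infinite {s : ℕ | 0 < s} := Set.infinite_of_injective_forall_mem
    (f := fun n : ℕ => n + 1) (fun a b h => by simpa using h) (fun n => Nat.succ_pos n)
  refine Set.Infinite.mono ?_ (h1.image (f := fun s : ℕ => (s : ℂ))
    (fun a _ b _ h => Nat.cast_injective h))
  rintro _ ⟨s, hs, rfl⟩
  exact h s hs

/-- **The topological zeta function and its poles.** -/
theorem topZeta_main {R : Type} [CommRing R] [IsDomain R] (E : MK ℂ →+* R) (ε : R →+* ℂ)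
    (h1 : ε (E ((Lu ℂ : (MK ℂ)ˣ) : MK ℂ)) = 1) (hu : E ((Lu ℂ : (MK ℂ)ˣ) : MK ℂ) ≠ 1)
    {D : Set (ℤ × ℤ)} (hD : ∀ q ∈ D, q.1 < 0 ∧ 0 < q.2) {Zm : PowerSeries (MK ℂ)}
    (hZ : Zm ∈ ratL (Lu ℂ) D) : ∃ Z : RatFunc ℂ, IsTopZeta E ε Zm Z ∧
      (∀ Z', IsTopZeta E ε Zm Z' → Z' = Z) ∧
      ∀ s₀ : ℂ, Z.denom.eval s₀ = 0 → ∃ q ∈ D, s₀ = (q.1 : ℂ) / q.2 := by
  obtain ⟨g, h, h2, h3, h4⟩ := specAt_ratL (u := Units.map (E : MK ℂ →* R) (Lu ℂ)) (ε := ε)
    (Lu ℂ) E rfl h1 hu hD hZ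
  have hh : h ≠ 0 := by
    rintro rfl
    exact h3 0 (by rw [Polynomial.eval_zero])
  set Z : RatFunc ℂ := algebraMap (Polynomial ℂ) (RatFunc ℂ) g /
    algebraMap (Polynomial ℂ) (RatFunc ℂ) h with hZdef
  have hnd : Z.num * h = g * Z.denom := by
    have h5 : algebraMap (Polynomial ℂ) (RatFunc ℂ) (Z.num * h) =
        algebraMap (Polynomial ℂ) (RatFunc ℂ) (g * Z.denom) := by
      have h6 : algebraMap (Polynomial ℂ) (RatFunc ℂ) h ≠ 0 := by
        rw [Ne, map_eq_zero_iff _ (RatFunc.algebraMap_injective ℂ)]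
        exact hh
      have h7 : algebraMap (Polynomial ℂ) (RatFunc ℂ) Z.denom ≠ 0 := by
        rw [Ne, map_eq_zero_iff _ (RatFunc.algebraMap_injective ℂ)]
        exact Z.denom_ne_zero
      have h8 := RatFunc.num_div_denom Z
      rw [hZdef] at h8
      rw [← hZdef, div_eq_div_iff h7 h6] at h8
      rw [map_mul, map_mul]
      exact h8
    exact RatFunc.algebraMap_injective ℂ h5
  refine ⟨Z, fun s hs => ?_, fun Z' hZ' => ?_, fun s₀ hs₀ => ?_⟩
  · obtain ⟨c, hc, hc'⟩ := h4 s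
    refine ⟨c, hc, ?_⟩
    have h5 := congrArg (Polynomial.eval (s : ℂ)) hnd
    rw [Polynomial.eval_mul, Polynomial.eval_mul, hc'] at h5
    have h6 := h3 s
    have h7 : h.eval (s : ℂ) * (Z.num.eval (s : ℂ) - c * Z.denom.eval (s : ℂ)) = 0 := by
      linear_combination h5
    exact sub_eq_zero.1 ((mul_eq_zero.1 h7).resolve_left h6)
  · have h5 : Z'.num * h = g * Z'.denom := by
      refine poly_eq_of_nat fun s hs => ?_
      obtain ⟨c, hc, hc'⟩ := h4 s
      obtain ⟨d, hd, hd'⟩ := hZ' s hs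
      have h6 := specAt_unique hc hd
      subst h6
      rw [Polynomial.eval_mul, Polynomial.eval_mul, hc', hd']
      ring
    have h6 : algebraMap (Polynomial ℂ) (RatFunc ℂ) h ≠ 0 := by
      rw [Ne, map_eq_zero_iff _ (RatFunc.algebraMap_injective ℂ)]
      exact hh
    have h7 : algebraMap (Polynomial ℂ) (RatFunc ℂ) Z'.denom ≠ 0 := by
      rw [Ne, map_eq_zero_iff _ (RatFunc.algebraMap_injective ℂ)]
      exact Z'.denom_ne_zero
    rw [← RatFunc.num_div_denom Z', hZdef, div_eq_div_iff h7 h6, ← map_mul, ← map_mul, h5]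
  · apply h2
    have h5 := congrArg (Polynomial.eval s₀) hnd
    rw [Polynomial.eval_mul, Polynomial.eval_mul, hs₀, mul_zero] at h5
    refine (mul_eq_zero.1 h5).resolve_left fun h6 => ?_
    obtain ⟨x, y, hxy⟩ := Z.isCoprime_num_denom
    have h7 := congrArg (Polynomial.eval s₀) hxy
    rw [Polynomial.eval_add, Polynomial.eval_mul, Polynomial.eval_mul, h6, hs₀,
      Polynomial.eval_one] at h7
    simp at h7

/-! ### the systems of minors -/

/-- change of the generators -/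
theorem rl_change {K : Type} [Field K] {T : ℕ} {R : Type} [CommRing R] {u : Rˣ} {M : Meas K R}
    {a : Fin T → ℕ} (hu : M.L = (u : R)) {D : Set (ℤ × ℤ)} {Xs Ys : Sys T} (e : Ys.ι ≃ Xs.ι)
    (H : ∀ (A : Type) [CommRing A] (x : Xs.ι → A) (t : Fin T),
      fI Xs x t = fI Ys (fun y => x (e y)) t) (hY : RL u M a D Ys) : RL u M a D Xs := by
  obtain ⟨p, hp⟩ := mkPiv Xs Ys Empty ((Equiv.emptySum Empty Ys.ι).trans e) 1 (fun _ => 0) (by
    intro A _ x x' _ h t
    have h1 : x' = fun y => x (e y) := by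
      funext y
      have h2 := h y
      rw [map_one, one_mul, one_mul, map_zero, sub_zero] at h2
      exact h2
    rw [h1]
    exact H A x t)
  intro π _ V hV hG hC
  refine rl_piv hu p hY π V hV hG hC fun v _ => ?_
  rw [hp _ (fun i => v (Sum.inr (Sum.inl i))), map_one]
  exact one_ne_zero

/-- **The zeta functions of the minors are rational.** -/
theorem top_rl {K : Type} [Field K] (S : MSpace) {T : ℕ} {R : Type} [CommRing R] {u : Rˣ}
    {M : Meas K R} (hu : M.L = (u : R)) (p a : Fin T → ℕ) (ha : ∀ t, 0 < a t) :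
    RL u M a (Dset S.codim p a 0) (topSys S p) := by
  cases S with
  | gen m n =>
    have h1 := tw_rl (K := K) (M := M) hu ha (tw_gen m n p m 0 (Fin m) (Fin n)
      (Fintype.card_fin m) (by rw [Fintype.card_fin, Nat.sub_zero])
      (by rw [Fintype.card_fin, Nat.sub_zero]))
    refine rl_change (Xs := topSys (MSpace.gen m n) p)
      (Ys := mSys (gM (Fin m) (Fin n)) fun t => p t - 0) hu (Equiv.refl _) ?_ h1
    intro A _ x t
    refine Eq.trans ?_ (fI_mSys (gM (Fin m) (Fin n)) (fun t => p t - 0) x t).symm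
    have key : ∀ l : (topSys (MSpace.gen m n) p).Λ, ev x ((topSys (MSpace.gen m n) p).G l) =
        (((gM (Fin m) (Fin n)).map (ev x)).submatrix l.2.1 l.2.2).det := by
      intro l
      exact RingHom.map_det (ev x) ((gM (Fin m) (Fin n)).submatrix l.2.1 l.2.2)
    refine le_antisymm (Ideal.span_le.2 ?_) (minI_sorted _ _ fun r c => ?_)
    · rintro y ⟨l, rfl, rfl⟩
      rw [SetLike.mem_coe, key l]
      exact det_mem _ _ _
    · exact Ideal.subset_span ⟨⟨t, (r, c)⟩, rfl, (key ⟨t, (r, c)⟩).symm⟩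
  | sym n =>
    have h1 := tw_rl (K := K) (M := M) hu ha (tw_sym n p n 0 (Fin n)
      (Fintype.card_fin n) (by rw [Fintype.card_fin, Nat.sub_zero]))
    refine rl_change (Xs := topSys (MSpace.sym n) p)
      (Ys := mSys (sM (Fin n)) fun t => p t - 0) hu (Equiv.refl _) ?_ h1
    intro A _ x t
    refine Eq.trans ?_ (fI_mSys (sM (Fin n)) (fun t => p t - 0) x t).symm
    have key : ∀ l : (topSys (MSpace.sym n) p).Λ, ev x ((topSys (MSpace.sym n) p).G l) =
        (((sM (Fin n)).map (ev x)).submatrix l.2.1 l.2.2).det := by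
      intro l
      exact RingHom.map_det (ev x) ((sM (Fin n)).submatrix l.2.1 l.2.2)
    refine le_antisymm (Ideal.span_le.2 ?_) (minI_sorted _ _ fun r c => ?_)
    · rintro y ⟨l, rfl, rfl⟩
      rw [SetLike.mem_coe, key l]
      exact det_mem _ _ _
    · exact Ideal.subset_span ⟨⟨t, (r, c)⟩, rfl, (key ⟨t, (r, c)⟩).symm⟩
  | skew n =>
    have h1 := tw_rl (K := K) (M := M) hu ha (tw_skew n p n 0 (Fin n)
      (Fintype.card_fin n) (by rw [Fintype.card_fin, Nat.mul_zero, Nat.sub_zero]))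
    refine rl_change (Xs := topSys (MSpace.skew n) p)
      (Ys := kSys (kM (Fin n)) fun t => p t - 0) hu (Equiv.refl _) ?_ h1
    intro A _ x t
    refine Eq.trans ?_ (fI_kSys (kM (Fin n)) (fun t => p t - 0) x t).symm
    have key : ∀ (t : Fin T) (r : Fin (2 * p t) ↪o Fin n),
        ev x ((topSys (MSpace.skew n) p).G ⟨t, r⟩) =
        pf (2 * p t) (((kM (Fin n)).map (ev x)).submatrix r r) := by
      intro t r
      exact pf_map (ev x) (2 * p t) ((kM (Fin n)).submatrix r r)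
    refine le_antisymm (Ideal.span_le.2 ?_) (pfI_sorted _ (kM_alt x) _ fun r => ?_)
    · rintro y ⟨⟨t', r⟩, ht, rfl⟩
      have ht' : t' = t := ht
      subst ht'
      rw [SetLike.mem_coe, key t' r]
      exact pf_mem _ _
    · exact Ideal.subset_span ⟨⟨t, r⟩, rfl, (key t r).symm⟩

/-- **The zeta functions of the determinantal forms.** -/
theorem zetaM_memL (S : MSpace) (T : ℕ) (p a : Fin T → ℕ)
    (hp : ∀ t, S.Small (p t)) (ha : ∀ t, 0 < a t)
    {W : Set (Pt ℂ ((Σ t, S.Idx (p t)) ⊕ S.Var))} (hW : Constr W) :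
    zetaM (map (Int.castRingHom ℂ) (detForm S p a)) W {c | c ≠ 0} ∈
      ratL (Lu ℂ) (formPairs S p a : Set (ℤ × ℤ)) := by
  obtain ⟨M, hL, hM⟩ := exists_meas ℂ
  have h1 := zetaS_memL (X := topSys S p) (a := a) hL ha
    (D := (formPairs S p a : Set (ℤ × ℤ)))
    (fun π _ V hV hG hC => ratL_mono (Lu ℂ) ((Dset_det S p a hp).trans (detPairs_form S p a))
      (top_rl S hL p a ha π V hV hG hC))
    (one_form S p a) (W := W) hW
  rw [fX_top, ← detForm_eq] at h1
  have h2 : zetaM (map (Int.castRingHom ℂ) (detForm S p a)) W {c | c ≠ 0} =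
      zetaS M (((Lu ℂ)⁻¹ : (MK ℂ)ˣ) : MK ℂ) (map (Int.castRingHom ℂ) (detForm S p a)) W
        {c | c ≠ 0} := by
    unfold zetaM zetaS
    congr 1
    funext d
    rw [hM, inv_pow_eq, Nat.mul_comm]
  rw [h2]
  exact h1

theorem zetaId_memL (S : MSpace) (T : ℕ) (p : Fin T → ℕ) (hp : ∀ t, S.Small (p t)) :
    zetaId (fun j => map (Int.castRingHom ℂ) (detProd S p j)) ∈
      ratL (Lu ℂ) (detPairs S p (fun _ => 1) : Set (ℤ × ℤ)) := by
  obtain ⟨M, hL, hM⟩ := exists_meas ℂ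
  have hW : Constr (Set.univ : Set (Pt ℂ S.Var)) := Constr.univ
  have hC : Cone (topSys S p) (VI (K := ℂ) (topSys S p) Set.univ) := by
    rintro v ⟨h1, h2⟩ μ hμ
    refine ⟨trivial, fun t => ?_⟩
    obtain ⟨l, hl, hl'⟩ := h2 t
    exact ⟨l, hl, mul_ne_zero (hμ _) hl'⟩
  have h1 := top_rl S hL p (fun _ => 1) (fun _ => Nat.one_pos) Empty
    (VI (topSys S p) Set.univ) (constr_VI (topSys S p) hW) (gd_VI (topSys S p) Set.univ) hC
  rw [← zetaI_eq M _ (hv hL) (topSys S p) hW] at h1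
  have h2 : zetaId (fun j => map (Int.castRingHom ℂ) (detProd S p j)) =
      PowerSeries.mk fun N => M.χ ((topSys S p).ι × Fin (N + 1))
      (JetF (fun c => map (Int.castRingHom ℂ) (gX (topSys S p) c)) Set.univ N) *
        (((Lu ℂ)⁻¹ : (MK ℂ)ˣ) : MK ℂ) ^ (N * Fintype.card (topSys S p).ι) := by
    unfold zetaId
    congr 1
    funext N
    rw [hM, inv_pow_eq, jetF_prods, Nat.mul_comm]
  rw [h2]
  exact ratL_mono (Lu ℂ) (Dset_det S p (fun _ => 1) hp) h1

/-! ### the poles -/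

theorem form_top (S : MSpace) (T : ℕ) (p a : Fin T → ℕ) (hp : ∀ t, S.Small (p t))
    (ha : ∀ t, 0 < a t) {W : Set (Pt ℂ ((Σ t, S.Idx (p t)) ⊕ S.Var))} (hW : Constr W)
    {R : Type} [CommRing R] [IsDomain R] (E : MK ℂ →+* R) (ε : R →+* ℂ)
    (h1 : ε (E ((Lu ℂ : (MK ℂ)ˣ) : MK ℂ)) = 1) (hu : E ((Lu ℂ : (MK ℂ)ˣ) : MK ℂ) ≠ 1) :
    ∃ Z : RatFunc ℂ,
      IsTopZeta E ε (zetaM (map (Int.castRingHom ℂ) (detForm S p a)) W {c | c ≠ 0}) Z ∧
      (∀ Z', IsTopZeta E ε (zetaM (map (Int.castRingHom ℂ) (detForm S p a)) W {c | c ≠ 0}) Z' →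
        Z' = Z) ∧
      ∀ s₀ : ℂ, Z.denom.eval s₀ = 0 → ∃ q ∈ formPairs S p a, s₀ = (q.1 : ℂ) / q.2 :=
  topZeta_main E ε h1 hu (fun q hq => ⟨(form_roots S T p a hp ha q hq).1,
    (form_roots S T p a hp ha q hq).2.1⟩) (zetaM_memL S T p a hp ha hW)

theorem prod_top (S : MSpace) (T : ℕ) (p : Fin T → ℕ) (hp : ∀ t, S.Small (p t))
    {R : Type} [CommRing R] [IsDomain R] (E : MK ℂ →+* R) (ε : R →+* ℂ)
    (h1 : ε (E ((Lu ℂ : (MK ℂ)ˣ) : MK ℂ)) = 1) (hu : E ((Lu ℂ : (MK ℂ)ˣ) : MK ℂ) ≠ 1) :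
    ∃ Z : RatFunc ℂ,
      IsTopZeta E ε (zetaId fun j => map (Int.castRingHom ℂ) (detProd S p j)) Z ∧
      (∀ Z', IsTopZeta E ε (zetaId fun j => map (Int.castRingHom ℂ) (detProd S p j)) Z' →
        Z' = Z) ∧
      ∀ s₀ : ℂ, Z.denom.eval s₀ = 0 →
        ∃ q ∈ detPairs S p (fun _ => 1), s₀ = (q.1 : ℂ) / q.2 :=
  topZeta_main E ε h1 hu (fun q hq => ⟨(prod_roots S T p hp q hq).1,
    (prod_roots S T p hp q hq).2.1⟩) (zetaId_memL S T p hp)

end Pool.Agent.TH192.MU
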