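import Pool.Agent.TH192.MU.TDefs

set_option autoImplicit false

/-! # The twisted topological zeta functions, from the covers of the sets of jets -/

namespace Pool.Agent.TH192.MU

open MvPolynomial Pool.Agent.W428.MOT Pool.Agent.TH192.MT

/-- The pairs of a `w ≠ 0` and a `d`-jet `φ` with `f(φ) = w ^ k t ^ d mod t ^ (d + 1)`: the `k`-fold cover,
given by the angular component of `f(φ)`, of the set of the `d`-jets on which `f` has the order `d`. -/
def JetC {σ : Type} (f : MvPolynomial σ ℂ) (k d : ℕ) : Set (Pt ℂ (Unit ⊕ σ × Fin (d + 1))) :=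
  {z | z (Sum.inl ()) ≠ 0 ∧
    (fun i => z (Sum.inr i)) ∈ JetS f Set.univ {c | c = z (Sum.inl ()) ^ k} d}

/-- The power series `∑_{d ≥ 1} [U_{d,k}] 𝕃 ^ (-n d) T ^ d`, where `U_{d,k}` is the set of the pairs of a
`d`-jet `φ` of `𝔸 ^ n` and a `w ≠ 0` with `f(φ) = w ^ k t ^ d mod t ^ (d + 1)`. -/
noncomputable def zetaC {σ : Type} [Fintype σ] (f : MvPolynomial σ ℂ) (k : ℕ) :
    PowerSeries (MK ℂ) :=
  PowerSeries.mk fun d => if d = 0 then 0 else
    algebraMap (K0 ℂ) (MK ℂ) (cls (Unit ⊕ σ × Fin (d + 1)) (JetC f k d)) *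
      (((Lu ℂ) ^ (-((Fintype.card σ * d : ℕ) : ℤ)) : (MK ℂ)ˣ) : MK ℂ)

/-- The twisted topological zeta function `Z` of `f` for the integer `e`. Let `Y k` be the topological
zeta function of `∑_{d ≥ 1} [U_{d,k}] 𝕃 ^ (-n d) T ^ d`, for every divisor `k` of `e`. The class of the
`k`-fold cover `U_{d,k}` is the sum of the parts which belong to the characters of order `e'` of the
group of the `k`-th roots of unity, over the divisors `e'` of `k` and the `φ(e')` characters of the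
order `e'`, so `Y k = ∑_{e' ∣ k} φ(e') Z^(e')`, and `φ(e) Z^(e) = ∑_{i k = e} μ(i) Y k`. -/
def IsTwistedTop {R : Type} [CommRing R] (E : MK ℂ →+* R) (ε : R →+* ℂ) {σ : Type} [Fintype σ]
    (f : MvPolynomial σ ℂ) (e : ℕ) (Z : RatFunc ℂ) : Prop :=
  ∃ Y : ℕ → RatFunc ℂ, (∀ k, k ∣ e → IsTopZeta E ε (zetaC f k) (Y k)) ∧
    (Nat.totient e : RatFunc ℂ) * Z =
      ∑ q ∈ e.divisorsAntidiagonal, ((ArithmeticFunction.moebius q.1 : ℤ) : RatFunc ℂ) * Y q.2

end Pool.Agent.TH192.MU
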