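import Pool.Agent.TH192.MU.Cone
import Pool.Agent.TH192.MU.WDefs

set_option autoImplicit false
set_option linter.unusedSectionVars false
set_option linter.unusedVariables false

/-! # Classes of one-dimensional diagonalisable groups -/

namespace Pool.Agent.TH192.MU

open MvPolynomial Pool.Agent.W428.MOT Pool.Agent.TH192.DT Pool.Agent.TH192.MT

section fin

variable {K : Type} [Field K] {R : Type} [CommRing R] (M : Meas K R)

/-- the class of a rational point of the line -/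
theorem chi_pt (a : K) : M.χ (Fin 1) {z : Pt K (Fin 1) | z 0 = algebraMap K _ a} = 1 := by
  have h0 : Constr {z : Pt K (Fin 1) | z 0 = algebraMap K _ a} :=
    Constr.eq (IsPF.coord 0) (IsPF.const a)
  rw [← M.point (ι := Fin 0)]
  refine M.iso _ _ h0 Constr.univ (fun _ j => j.elim0) (fun _ _ => algebraMap K _ a)
    (regularOn_poly (fun j => j.elim0) _) (regularOn_poly (fun j => IsPF.const a) _)
    (fun _ _ => Set.mem_univ _) (fun _ _ => rfl) ?_ ?_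
  · intro z hz
    funext j
    rw [Subsingleton.elim j 0]
    exact (show z 0 = _ from hz).symm
  · intro w _
    funext j
    exact j.elim0

/-- the class of a finite set of rational points of the line -/
theorem chi_pts (s : Finset K) :
    M.χ (Fin 1) {z : Pt K (Fin 1) | ∃ a ∈ s, z 0 = algebraMap K _ a} = (s.card : R) := by
  have h1 : {z : Pt K (Fin 1) | ∃ a ∈ s, z 0 = algebraMap K _ a} =
      ⋃ a ∈ s, {z : Pt K (Fin 1) | z 0 = algebraMap K _ a} := by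
    ext z
    simp
  rw [h1, Pool.Agent.W375.MT.chi_biUnion M s _
    (fun a _ => Constr.eq (IsPF.coord 0) (IsPF.const a))]
  · rw [Finset.sum_congr rfl fun a _ => chi_pt M a, Finset.sum_const, nsmul_eq_mul, mul_one]
  · intro a _ b _ hab
    rw [Set.disjoint_left]
    intro z hz hz'
    apply hab
    have h2 : algebraMap K (AlgebraicClosure K) a = algebraMap K (AlgebraicClosure K) b :=
      (show z 0 = _ from hz).symm.trans hz'
    exact (algebraMap K (AlgebraicClosure K)).injective h2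

end fin

section tor

variable {R : Type} [CommRing R] (M : Meas ℂ R)

/-- the class of the group of the roots of unity -/
theorem chi_mu (h : ℕ) (hh : 0 < h) :
    M.χ (Fin 1) {z : Pt ℂ (Fin 1) | z 0 ^ h = 1} = (h : R) := by
  have : NeZero h := ⟨hh.ne'⟩
  have h1 : {z : Pt ℂ (Fin 1) | z 0 ^ h = 1} =
      {z : Pt ℂ (Fin 1) | ∃ a ∈ Polynomial.nthRootsFinset h (1 : ℂ), z 0 = algebraMap ℂ _ a} := by
    ext z
    simp only [Set.mem_ofPred_eq]
    constructor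
    · intro h2
      obtain ⟨a, ha⟩ := IsAlgClosed.algebraMap_bijective_of_isIntegral
        (k := ℂ) (K := AlgebraicClosure ℂ) |>.2 (z 0)
      refine ⟨a, ?_, ha.symm⟩
      rw [Polynomial.mem_nthRootsFinset hh]
      rw [← ha, ← map_pow] at h2
      exact (algebraMap ℂ (AlgebraicClosure ℂ)).injective (h2.trans (map_one _).symm)
    · rintro ⟨a, ha, h2⟩
      rw [Polynomial.mem_nthRootsFinset hh] at ha
      rw [h2, ← map_pow, ha, map_one]
  rw [h1, chi_pts]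
  congr 1
  exact (Complex.isPrimitiveRoot_exp h hh.ne').card_nthRootsFinset

/-- the group of the `(w, l)` with `w ^ k = l ^ g` -/
def Dg (k g : ℕ) : Set (Pt ℂ (Fin 1 ⊕ Fin 1)) :=
  {z | z (Sum.inl 0) ≠ 0 ∧ z (Sum.inr 0) ≠ 0 ∧ z (Sum.inl 0) ^ k = z (Sum.inr 0) ^ g}

theorem constr_Dg (k g : ℕ) : Constr (Dg k g) :=
  Constr.and (Constr.not (Constr.eqz (IsPF.coord _)))
    (Constr.and (Constr.not (Constr.eqz (IsPF.coord _)))
      (Constr.eq ((IsPF.coord _).pow k) ((IsPF.coord _).pow g)))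

theorem rf_zpow {K : Type} [Field K] {ι : Type} {S : Set (Pt K ι)}
    {F : Pt K ι → AlgebraicClosure K} (hF : IsRF S F) (h0 : ∀ z ∈ S, F z ≠ 0) (m : ℤ) :
    IsRF S fun z => F z ^ m := by
  obtain ⟨n, rfl | rfl⟩ := m.eq_nat_or_neg
  · simp only [zpow_natCast]
    exact rf_pow hF n
  · simp only [zpow_neg, zpow_natCast]
    exact rf_inv (rf_pow hF n) fun z hz => pow_ne_zero _ (h0 z hz)

/-- **The class of the group of the `(w, l)` with `w ^ k = l ^ g`.** -/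
theorem chi_Dg (k g : ℕ) (hk : 0 < k) :
    M.χ _ (Dg k g) = (Nat.gcd k g : R) * (M.L - 1) := by
  set h := Nat.gcd k g with hh
  have hpos : 0 < h := Nat.gcd_pos_of_pos_left g hk
  obtain ⟨k', hk'⟩ : h ∣ k := Nat.gcd_dvd_left k g
  obtain ⟨g', hg'⟩ : h ∣ g := Nat.gcd_dvd_right k g
  -- `u k' + v g' = 1`
  have hb : (k' : ℤ) * Nat.gcdA k g + (g' : ℤ) * Nat.gcdB k g = 1 := by
    have h1 := Nat.gcd_eq_gcd_ab k g
    rw [← hh] at h1
    have h2 : (k : ℤ) = h * k' := by exact_mod_cast hk'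
    have h3 : (g : ℤ) = h * g' := by exact_mod_cast hg'
    have h4 : (h : ℤ) * ((k' : ℤ) * Nat.gcdA k g + (g' : ℤ) * Nat.gcdB k g) = h * 1 := by
      rw [mul_one]
      calc (h : ℤ) * ((k' : ℤ) * Nat.gcdA k g + (g' : ℤ) * Nat.gcdB k g)
          = (h * k' : ℤ) * Nat.gcdA k g + (h * g' : ℤ) * Nat.gcdB k g := by ring
        _ = h := by rw [← h2, ← h3]; exact h1.symm
    exact mul_left_cancel₀ (by exact_mod_cast hpos.ne') h4
  set u := Nat.gcdA k g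
  set v := Nat.gcdB k g
  have hm : Constr {z : Pt ℂ (Fin 1) | z 0 ^ h = 1} := Constr.eq ((IsPF.coord 0).pow h) IsPF.one
  have hg : Constr {z : Pt ℂ (Fin 1) | z 0 ≠ 0} := Constr.not (Constr.eqz (IsPF.coord 0))
  rw [← chi_mu M h hpos, ← Pool.Agent.W417.MT.Free.chi_gm M, ← M.prod _ _ hm hg]
  have hT : Constr {z : Pt ℂ (Fin 1 ⊕ Fin 1) |
      (fun i => z (Sum.inl i)) ∈ {z : Pt ℂ (Fin 1) | z 0 ^ h = 1} ∧
      (fun i => z (Sum.inr i)) ∈ {z : Pt ℂ (Fin 1) | z 0 ≠ 0}} :=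
    Constr.and (hm.preimage (fun z : Pt ℂ (Fin 1 ⊕ Fin 1) => fun i => z (Sum.inl i))
      fun i => IsPF.coord _)
      (hg.preimage (fun z : Pt ℂ (Fin 1 ⊕ Fin 1) => fun i => z (Sum.inr i)) fun i => IsPF.coord _)
  refine M.iso _ _ (constr_Dg k g) hT
    (fun z => Sum.elim (fun _ => z (Sum.inl 0) ^ (k' : ℤ) * z (Sum.inr 0) ^ (-(g' : ℤ)))
      (fun _ => z (Sum.inl 0) ^ v * z (Sum.inr 0) ^ u))
    (fun y => Sum.elim (fun _ => y (Sum.inl 0) ^ u * y (Sum.inr 0) ^ (g' : ℤ))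
      (fun _ => y (Sum.inl 0) ^ (-v) * y (Sum.inr 0) ^ (k' : ℤ))) ?_ ?_ ?_ ?_ ?_ ?_
  · have e1 : ∀ m : ℤ, IsRF (Dg k g) fun z => z (Sum.inl 0) ^ m := fun m =>
      rf_zpow ((IsPF.coord _).isRF _) (fun z hz => hz.1) m
    have e2 : ∀ m : ℤ, IsRF (Dg k g) fun z => z (Sum.inr 0) ^ m := fun m =>
      rf_zpow ((IsPF.coord _).isRF _) (fun z hz => hz.2.1) m
    rintro (i | i)
    · exact (e1 _).mul (e2 _)
    · exact (e1 _).mul (e2 _)
  · have e1 : ∀ m : ℤ, IsRF _ fun z : Pt ℂ (Fin 1 ⊕ Fin 1) => z (Sum.inl 0) ^ m := fun m =>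
      rf_zpow ((IsPF.coord _).isRF {z : Pt ℂ (Fin 1 ⊕ Fin 1) |
      (fun i => z (Sum.inl i)) ∈ {z : Pt ℂ (Fin 1) | z 0 ^ h = 1} ∧
      (fun i => z (Sum.inr i)) ∈ {z : Pt ℂ (Fin 1) | z 0 ≠ 0}}) (fun z hz => by
        intro h0
        have h1 : z (Sum.inl 0) ^ h = 1 := hz.1
        rw [h0, zero_pow hpos.ne'] at h1
        exact zero_ne_one h1) m
    have e2 : ∀ m : ℤ, IsRF _ fun z : Pt ℂ (Fin 1 ⊕ Fin 1) => z (Sum.inr 0) ^ m := fun m =>
      rf_zpow ((IsPF.coord _).isRF {z : Pt ℂ (Fin 1 ⊕ Fin 1) |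
      (fun i => z (Sum.inl i)) ∈ {z : Pt ℂ (Fin 1) | z 0 ^ h = 1} ∧
      (fun i => z (Sum.inr i)) ∈ {z : Pt ℂ (Fin 1) | z 0 ≠ 0}}) (fun z hz => hz.2) m
    rintro (i | i)
    · exact (e1 _).mul (e2 _)
    · exact (e1 _).mul (e2 _)
  · rintro z ⟨h1, h2, h3⟩
    refine ⟨?_, mul_ne_zero (zpow_ne_zero _ h1) (zpow_ne_zero _ h2)⟩
    change (z (Sum.inl 0) ^ (k' : ℤ) * z (Sum.inr 0) ^ (-(g' : ℤ))) ^ h = 1
    rw [mul_pow, zpow_neg, inv_pow, zpow_natCast, zpow_natCast, ← pow_mul, ← pow_mul,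
      mul_comm k' h, mul_comm g' h, ← hk', ← hg', h3]
    exact mul_inv_cancel₀ (pow_ne_zero _ h2)
  · rintro y ⟨h1, h2⟩
    have h1' : y (Sum.inl 0) ^ h = 1 := h1
    have h2' : y (Sum.inr 0) ≠ 0 := h2
    have h3 : y (Sum.inl 0) ≠ 0 := by
      intro h0
      rw [h0, zero_pow hpos.ne'] at h1'
      exact zero_ne_one h1'
    refine ⟨mul_ne_zero (zpow_ne_zero _ h3) (zpow_ne_zero _ h2'),
      mul_ne_zero (zpow_ne_zero _ h3) (zpow_ne_zero _ h2'), ?_⟩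
    change (y (Sum.inl 0) ^ u * y (Sum.inr 0) ^ (g' : ℤ)) ^ k =
      (y (Sum.inl 0) ^ (-v) * y (Sum.inr 0) ^ (k' : ℤ)) ^ g
    have e1 : ∀ (m : ℤ) (n : ℕ), (y (Sum.inl 0) ^ m) ^ (h * n) = 1 := by
      intro m n
      rw [← zpow_natCast, ← zpow_mul, Nat.cast_mul, ← mul_assoc, mul_comm m (h : ℤ), mul_assoc,
        zpow_mul, zpow_natCast, h1', one_zpow]
    have eA : (y (Sum.inl 0) ^ u) ^ k = 1 := by
      have e2 := e1 u k'
      rwa [← hk'] at e2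
    have eB : (y (Sum.inl 0) ^ (-v)) ^ g = 1 := by
      have e2 := e1 (-v) g'
      rwa [← hg'] at e2
    rw [mul_pow, mul_pow, eA, eB, one_mul, one_mul, zpow_natCast, zpow_natCast, ← pow_mul,
      ← pow_mul]
    congr 1
    have e3 : g' * (h * k') = k' * (h * g') := by ring
    rwa [← hk', ← hg'] at e3
  · rintro z ⟨h1, h2, h3⟩
    funext i
    rcases i with i | i
    · change (z (Sum.inl 0) ^ (k' : ℤ) * z (Sum.inr 0) ^ (-(g' : ℤ))) ^ u *
        (z (Sum.inl 0) ^ v * z (Sum.inr 0) ^ u) ^ (g' : ℤ) = z (Sum.inl i)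
      rw [mul_zpow, mul_zpow, ← zpow_mul, ← zpow_mul, ← zpow_mul, ← zpow_mul, Subsingleton.elim i 0]
      calc z (Sum.inl 0) ^ ((k' : ℤ) * u) * z (Sum.inr 0) ^ (-(g' : ℤ) * u) *
            (z (Sum.inl 0) ^ (v * (g' : ℤ)) * z (Sum.inr 0) ^ (u * (g' : ℤ)))
          = (z (Sum.inl 0) ^ ((k' : ℤ) * u) * z (Sum.inl 0) ^ (v * (g' : ℤ))) *
            (z (Sum.inr 0) ^ (-(g' : ℤ) * u) * z (Sum.inr 0) ^ (u * (g' : ℤ))) := by ring
        _ = z (Sum.inl 0) ^ (1 : ℤ) * z (Sum.inr 0) ^ (0 : ℤ) := by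
          rw [← zpow_add₀ h1, ← zpow_add₀ h2]
          congr 2
          · rw [← hb]; ring
          · ring
        _ = z (Sum.inl 0) := by rw [zpow_one, zpow_zero, mul_one]
    · change (z (Sum.inl 0) ^ (k' : ℤ) * z (Sum.inr 0) ^ (-(g' : ℤ))) ^ (-v) *
        (z (Sum.inl 0) ^ v * z (Sum.inr 0) ^ u) ^ (k' : ℤ) = z (Sum.inr i)
      rw [mul_zpow, mul_zpow, ← zpow_mul, ← zpow_mul, ← zpow_mul, ← zpow_mul, Subsingleton.elim i 0]
      calc z (Sum.inl 0) ^ ((k' : ℤ) * -v) * z (Sum.inr 0) ^ (-(g' : ℤ) * -v) *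
            (z (Sum.inl 0) ^ (v * (k' : ℤ)) * z (Sum.inr 0) ^ (u * (k' : ℤ)))
          = (z (Sum.inl 0) ^ ((k' : ℤ) * -v) * z (Sum.inl 0) ^ (v * (k' : ℤ))) *
            (z (Sum.inr 0) ^ (-(g' : ℤ) * -v) * z (Sum.inr 0) ^ (u * (k' : ℤ))) := by ring
        _ = z (Sum.inl 0) ^ (0 : ℤ) * z (Sum.inr 0) ^ (1 : ℤ) := by
          rw [← zpow_add₀ h1, ← zpow_add₀ h2]
          congr 2
          · ring
          · rw [← hb]; ring
        _ = z (Sum.inr 0) := by rw [zpow_one, zpow_zero, one_mul]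
  · rintro y ⟨h1, h2⟩
    have h1' : y (Sum.inl 0) ^ h = 1 := h1
    have h2' : y (Sum.inr 0) ≠ 0 := h2
    have h3 : y (Sum.inl 0) ≠ 0 := by
      intro h0
      rw [h0, zero_pow hpos.ne'] at h1'
      exact zero_ne_one h1'
    funext i
    rcases i with i | i
    · change (y (Sum.inl 0) ^ u * y (Sum.inr 0) ^ (g' : ℤ)) ^ (k' : ℤ) *
        (y (Sum.inl 0) ^ (-v) * y (Sum.inr 0) ^ (k' : ℤ)) ^ (-(g' : ℤ)) = y (Sum.inl i)
      rw [mul_zpow, mul_zpow, ← zpow_mul, ← zpow_mul, ← zpow_mul, ← zpow_mul, Subsingleton.elim i 0]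
      calc y (Sum.inl 0) ^ (u * (k' : ℤ)) * y (Sum.inr 0) ^ ((g' : ℤ) * (k' : ℤ)) *
            (y (Sum.inl 0) ^ (-v * -(g' : ℤ)) * y (Sum.inr 0) ^ ((k' : ℤ) * -(g' : ℤ)))
          = (y (Sum.inl 0) ^ (u * (k' : ℤ)) * y (Sum.inl 0) ^ (-v * -(g' : ℤ))) *
            (y (Sum.inr 0) ^ ((g' : ℤ) * (k' : ℤ)) * y (Sum.inr 0) ^ ((k' : ℤ) * -(g' : ℤ))) := by
              ring
        _ = y (Sum.inl 0) ^ (1 : ℤ) * y (Sum.inr 0) ^ (0 : ℤ) := by
          rw [← zpow_add₀ h3, ← zpow_add₀ h2']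
          congr 2
          · rw [← hb]; ring
          · ring
        _ = y (Sum.inl 0) := by rw [zpow_one, zpow_zero, mul_one]
    · change (y (Sum.inl 0) ^ u * y (Sum.inr 0) ^ (g' : ℤ)) ^ v *
        (y (Sum.inl 0) ^ (-v) * y (Sum.inr 0) ^ (k' : ℤ)) ^ u = y (Sum.inr i)
      rw [mul_zpow, mul_zpow, ← zpow_mul, ← zpow_mul, ← zpow_mul, ← zpow_mul, Subsingleton.elim i 0]
      calc y (Sum.inl 0) ^ (u * v) * y (Sum.inr 0) ^ ((g' : ℤ) * v) *
            (y (Sum.inl 0) ^ (-v * u) * y (Sum.inr 0) ^ ((k' : ℤ) * u))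
          = (y (Sum.inl 0) ^ (u * v) * y (Sum.inl 0) ^ (-v * u)) *
            (y (Sum.inr 0) ^ ((g' : ℤ) * v) * y (Sum.inr 0) ^ ((k' : ℤ) * u)) := by ring
        _ = y (Sum.inl 0) ^ (0 : ℤ) * y (Sum.inr 0) ^ (1 : ℤ) := by
          rw [← zpow_add₀ h3, ← zpow_add₀ h2']
          congr 2
          · ring
          · rw [← hb]; ring
        _ = y (Sum.inr 0) := by rw [zpow_one, zpow_zero, one_mul]

end tor

end Pool.Agent.TH192.MU
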