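import Pool.Agent.TH192.MU.Tor

set_option autoImplicit false
set_option linter.unusedSectionVars false
set_option linter.unusedVariables false

/-! # The covers of the sets of jets of the powers of a homogeneous polynomial -/

namespace Pool.Agent.TH192.MU

open MvPolynomial Pool.Agent.W428.MOT Pool.Agent.TH192.DT Pool.Agent.TH192.MT

/-- the lowest coefficient of a power -/
theorem pow_lead {F : Type} [Field F] (H : PowerSeries F) {g : ℕ} (hg : 0 < g) (d : ℕ) (c : F)
    (hc : c ≠ 0) : ((∀ j < d, PowerSeries.coeff j (H ^ g) = 0) ∧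
      PowerSeries.coeff d (H ^ g) = c) ↔
    ∃ d', d = g * d' ∧ (∀ j < d', PowerSeries.coeff j H = 0) ∧ PowerSeries.coeff d' H ^ g = c := by
  have key : ∀ d' : ℕ, (∀ j < d', PowerSeries.coeff j H = 0) →
      (∀ j < g * d', PowerSeries.coeff j (H ^ g) = 0) ∧
      PowerSeries.coeff (g * d') (H ^ g) = PowerSeries.coeff d' H ^ g := by
    intro d' h
    obtain ⟨G, rfl⟩ := (PowerSeries.X_pow_dvd_iff).2 h
    have h1 : (PowerSeries.X ^ d' * G) ^ g = PowerSeries.X ^ (g * d') * G ^ g := by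
      rw [mul_pow, ← pow_mul, mul_comm d' g]
    rw [h1]
    refine ⟨fun j hj => ?_, ?_⟩
    · exact (PowerSeries.X_pow_dvd_iff).1 (dvd_mul_right _ _) j hj
    · have h2 := PowerSeries.coeff_X_pow_mul (G ^ g) (g * d') 0
      have h3 := PowerSeries.coeff_X_pow_mul G d' 0
      rw [zero_add] at h2 h3
      rw [h2, h3]
      simp
  constructor
  · rintro ⟨h1, h2⟩
    have hH : H ≠ 0 := by
      rintro rfl
      rw [zero_pow hg.ne', map_zero] at h2
      exact hc h2.symm
    have h3 : ∃ n, PowerSeries.coeff n H ≠ 0 := by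
      by_contra h
      push Not at h
      exact hH (PowerSeries.ext fun n => by rw [h n, map_zero])
    classical
    have h4 := Nat.find_spec h3
    have h5 : ∀ j < Nat.find h3, PowerSeries.coeff j H = 0 := fun j hj => by
      have := Nat.find_min h3 hj
      exact not_not.1 this
    set n := Nat.find h3
    obtain ⟨h6, h7⟩ := key n h5
    have h8 : PowerSeries.coeff (g * n) (H ^ g) ≠ 0 := by
      rw [h7]
      exact pow_ne_zero _ h4
    have h9 : d = g * n := by
      rcases lt_trichotomy d (g * n) with h | h | h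
      · exact absurd ((h2.symm.trans (h6 d h))) hc
      · exact h
      · exact absurd (h1 _ h) h8
    refine ⟨n, h9, h5, ?_⟩
    rw [← h7, ← h9, h2]
  · rintro ⟨d', rfl, h1, h2⟩
    obtain ⟨h3, h4⟩ := key d' h1
    exact ⟨h3, h4.trans h2⟩

section cov

variable {σ : Type} [Fintype σ] {R : Type} [CommRing R] (M : Meas ℂ R)
  (F : MvPolynomial σ ℂ) (c : σ → ℤ)

/-- `F` is homogeneous of degree one for the weights `c` -/
def Hom1 : Prop := ∀ (μ : AlgebraicClosure ℂ), μ ≠ 0 →
  ∀ x : σ → PowerSeries (AlgebraicClosure ℂ),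
    aeval (fun i => PowerSeries.C (μ ^ c i) * x i) F = PowerSeries.C μ * aeval x F

/-- the `d`-jets with `F(φ) = t ^ d' + …` -/
def Y1 (d d' : ℕ) : Set (Pt ℂ (σ × Fin (d + 1))) :=
  {z | (∀ j < d', PowerSeries.coeff j (aeval (ar z) F) = 0) ∧
    PowerSeries.coeff d' (aeval (ar z) F) = 1}

/-- scaling with weights -/
noncomputable def sc {d : ℕ} (μ : AlgebraicClosure ℂ) (z : Pt ℂ (σ × Fin (d + 1))) :
    Pt ℂ (σ × Fin (d + 1)) := fun q => μ ^ c q.1 * z q

theorem ar_sc {d : ℕ} (μ : AlgebraicClosure ℂ) (z : Pt ℂ (σ × Fin (d + 1))) :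
    ar (sc c μ z) = fun i => PowerSeries.C (μ ^ c i) * ar z i := by
  funext i
  ext j
  rw [PowerSeries.coeff_C_mul]
  unfold ar
  rw [PowerSeries.coeff_mk, PowerSeries.coeff_mk]
  split_ifs
  · rfl
  · rw [mul_zero]

variable {F} {c}

theorem aeval_sc (h : Hom1 F c) {d : ℕ} {μ : AlgebraicClosure ℂ} (hμ : μ ≠ 0)
    (z : Pt ℂ (σ × Fin (d + 1))) :
    aeval (ar (sc c μ z)) F = PowerSeries.C μ * aeval (ar z) F := by
  rw [ar_sc]
  exact h μ hμ (ar z)

theorem sc_sc {d : ℕ} {μ ν : AlgebraicClosure ℂ} (hμ : μ ≠ 0) (h : μ * ν = 1)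
    (z : Pt ℂ (σ × Fin (d + 1))) : sc c μ (sc c ν z) = z := by
  funext q
  change μ ^ c q.1 * (ν ^ c q.1 * z q) = z q
  rw [← mul_assoc, ← mul_zpow, h, one_zpow, one_mul]

theorem pf_ar {d : ℕ} (P : MvPolynomial σ ℂ) (j : ℕ) :
    IsPF fun z : Pt ℂ (σ × Fin (d + 1)) => PowerSeries.coeff j (aeval (ar z) P) := by
  have h1 : IsPA fun z : Pt ℂ (σ × Fin (d + 1)) => aeval (ar z) P := by
    induction P using MvPolynomial.induction_on with
    | C a =>
      have h2 : (fun z : Pt ℂ (σ × Fin (d + 1)) =>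
          (aeval (ar z) (C a : MvPolynomial σ ℂ) : PowerSeries (AlgebraicClosure ℂ))) =
          fun _ => PowerSeries.C (algebraMap ℂ (AlgebraicClosure ℂ) a) := by
        funext z
        rw [MvPolynomial.algHom_C]
        exact PowerSeries.algebraMap_apply
      rw [h2]
      exact IsPA.C (IsPF.const a)
    | add p q hp hq =>
      simp only [map_add]
      exact hp.add hq
    | mul_X p i hp =>
      simp only [map_mul, MvPolynomial.aeval_X]
      refine hp.mul fun k => ?_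
      unfold ar
      simp only [PowerSeries.coeff_mk]
      split_ifs
      · exact IsPF.coord _
      · exact IsPF.zero
  exact h1 j

theorem constr_Y1 (d d' : ℕ) : Constr (Y1 F d d') :=
  Constr.and (Constr.allLt _ fun j _ => Constr.eqz (pf_ar F j))
    (Constr.eq (pf_ar F d') IsPF.one)

variable (F)

/-- the jets with a cover and with the equation `F = l t ^ d' + …`, `w ^ k = l ^ g` -/
def U1 (g k d d' : ℕ) : Set (Pt ℂ (Unit ⊕ σ × Fin (d + 1))) :=
  {z | z (Sum.inl ()) ≠ 0 ∧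
    (∀ j < d', PowerSeries.coeff j (aeval (ar fun i => z (Sum.inr i)) F) = 0) ∧
    PowerSeries.coeff d' (aeval (ar fun i => z (Sum.inr i)) F) ^ g = z (Sum.inl ()) ^ k}

theorem constr_U1 (g k d d' : ℕ) : Constr (U1 F g k d d') := by
  have h1 : ∀ j, IsPF fun z : Pt ℂ (Unit ⊕ σ × Fin (d + 1)) =>
      PowerSeries.coeff j (aeval (ar fun i => z (Sum.inr i)) F) := fun j =>
    (pf_ar F j).comp (fun z : Pt ℂ (Unit ⊕ σ × Fin (d + 1)) => fun i => z (Sum.inr i))
      fun i => IsPF.coord _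
  exact Constr.and (Constr.not (Constr.eqz (IsPF.coord _)))
    (Constr.and (Constr.allLt _ fun j _ => Constr.eqz (h1 j))
      (Constr.eq ((h1 d').pow g) ((IsPF.coord _).pow k)))

variable {F}

/-- **The class of the cover.** -/
theorem chi_U1 (h : Hom1 F c) {g : ℕ} (hg : 0 < g) {k : ℕ} (hk : 0 < k) (d d' : ℕ) :
    M.χ _ (U1 F g k d d') = (Nat.gcd k g : R) * (M.L - 1) * M.χ _ (Y1 F d d') := by
  rw [← chi_Dg M k g hk, ← M.prod _ _ (constr_Dg k g) (constr_Y1 d d')]
  have hT : Constr {z : Pt ℂ ((Fin 1 ⊕ Fin 1) ⊕ σ × Fin (d + 1)) |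
      (fun i => z (Sum.inl i)) ∈ Dg k g ∧ (fun i => z (Sum.inr i)) ∈ Y1 F d d'} :=
    Constr.and ((constr_Dg k g).preimage
      (fun z : Pt ℂ ((Fin 1 ⊕ Fin 1) ⊕ σ × Fin (d + 1)) => fun i => z (Sum.inl i))
      fun i => IsPF.coord _)
      ((constr_Y1 d d').preimage
      (fun z : Pt ℂ ((Fin 1 ⊕ Fin 1) ⊕ σ × Fin (d + 1)) => fun i => z (Sum.inr i))
      fun i => IsPF.coord _)
  have hl : ∀ z ∈ U1 F g k d d',
      PowerSeries.coeff d' (aeval (ar fun i => z (Sum.inr i)) F) ≠ 0 := by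
    rintro z ⟨h1, h2, h3⟩ h4
    rw [h4, zero_pow hg.ne'] at h3
    exact pow_ne_zero _ h1 h3.symm
  have hpf : IsPF fun z : Pt ℂ (Unit ⊕ σ × Fin (d + 1)) =>
      PowerSeries.coeff d' (aeval (ar fun i => z (Sum.inr i)) F) :=
    (pf_ar F d').comp (fun z : Pt ℂ (Unit ⊕ σ × Fin (d + 1)) => fun i => z (Sum.inr i))
      fun i => IsPF.coord _
  refine M.iso _ _ (constr_U1 F g k d d') hT
    (fun z => Sum.elim (Sum.elim (fun _ => z (Sum.inl ()))
      (fun _ => PowerSeries.coeff d' (aeval (ar fun i => z (Sum.inr i)) F)))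
      (sc c (PowerSeries.coeff d' (aeval (ar fun i => z (Sum.inr i)) F))⁻¹
        fun i => z (Sum.inr i)))
    (fun y => Sum.elim (fun _ => y (Sum.inl (Sum.inl 0)))
      (sc c (y (Sum.inl (Sum.inr 0))) fun i => y (Sum.inr i))) ?_ ?_ ?_ ?_ ?_ ?_
  · rintro ((i | i) | q)
    · exact (IsPF.coord _).isRF _
    · exact hpf.isRF _
    · exact (rf_zpow (rf_inv (hpf.isRF _) hl) (fun z hz => inv_ne_zero (hl z hz)) _).mul
        ((IsPF.coord _).isRF _)
  · rintro (i | q)
    · exact (IsPF.coord _).isRF _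
    · exact (rf_zpow ((IsPF.coord _).isRF _) (fun z hz => hz.1.2.1) _).mul
        ((IsPF.coord _).isRF _)
  · intro z hz
    obtain ⟨h1, h2, h3⟩ := id hz
    have h4 := hl z hz
    refine ⟨⟨h1, h4, h3.symm⟩, ?_, ?_⟩
    · intro j hj
      change PowerSeries.coeff j (aeval (ar (sc c _ fun i => z (Sum.inr i))) F) = 0
      rw [aeval_sc h (inv_ne_zero h4), PowerSeries.coeff_C_mul, h2 j hj, mul_zero]
    · change PowerSeries.coeff d' (aeval (ar (sc c _ fun i => z (Sum.inr i))) F) = 1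
      rw [aeval_sc h (inv_ne_zero h4), PowerSeries.coeff_C_mul]
      exact inv_mul_cancel₀ h4
  · rintro y ⟨⟨h1, h2, h3⟩, h4, h5⟩
    refine ⟨h1, ?_, ?_⟩
    · intro j hj
      change PowerSeries.coeff j (aeval (ar (sc c _ fun i => y (Sum.inr i))) F) = 0
      rw [aeval_sc h h2, PowerSeries.coeff_C_mul, h4 j hj, mul_zero]
    · change PowerSeries.coeff d' (aeval (ar (sc c _ fun i => y (Sum.inr i))) F) ^ g =
        y (Sum.inl (Sum.inl 0)) ^ k
      rw [aeval_sc h h2, PowerSeries.coeff_C_mul, h5, mul_one]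
      exact h3.symm
  · intro z hz
    have h4 := hl z hz
    funext i
    rcases i with i | q
    · rfl
    · change sc c (PowerSeries.coeff d' (aeval (ar fun i => z (Sum.inr i)) F)) (sc c
        (PowerSeries.coeff d' (aeval (ar fun i => z (Sum.inr i)) F))⁻¹ fun i => z (Sum.inr i)) q = _
      rw [sc_sc h4 (mul_inv_cancel₀ h4)]
  · rintro y ⟨⟨h1, h2, h3⟩, h4, h5⟩
    have h6 : PowerSeries.coeff d' (aeval (ar (sc c (y (Sum.inl (Sum.inr 0)))
        fun i => y (Sum.inr i))) F) = y (Sum.inl (Sum.inr 0)) := by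
      rw [aeval_sc h h2, PowerSeries.coeff_C_mul, h5, mul_one]
    funext i
    rcases i with (i | i) | q
    · rw [Subsingleton.elim i 0]
      rfl
    · rw [Subsingleton.elim i 0]
      exact h6
    · change sc c (PowerSeries.coeff d' (aeval (ar (sc c (y (Sum.inl (Sum.inr 0)))
        fun i => y (Sum.inr i))) F))⁻¹ (sc c (y (Sum.inl (Sum.inr 0))) fun i => y (Sum.inr i)) q = _
      rw [h6, sc_sc (inv_ne_zero h2) (inv_mul_cancel₀ h2)]

/-- **The class of the `k`-fold cover of the set of jets of a power.** -/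
theorem chi_JetC (h : Hom1 F c) {g : ℕ} (hg : 0 < g) {k : ℕ} (hk : 0 < k) (d : ℕ) :
    M.χ _ (JetC (F ^ g) k d) = (Nat.gcd k g : R) * M.χ _ (JetC (F ^ g) 1 d) := by
  have key : ∀ k : ℕ, 0 < k → (∀ d', d = g * d' → JetC (F ^ g) k d = U1 F g k d d') ∧
      ((¬ ∃ d', d = g * d') → JetC (F ^ g) k d = ∅) := by
    intro k hk
    have h1 : ∀ z : Pt ℂ (Unit ⊕ σ × Fin (d + 1)), z ∈ JetC (F ^ g) k d ↔
        z (Sum.inl ()) ≠ 0 ∧ ∃ d', d = g * d' ∧
        (∀ j < d', PowerSeries.coeff j (aeval (ar fun i => z (Sum.inr i)) F) = 0) ∧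
        PowerSeries.coeff d' (aeval (ar fun i => z (Sum.inr i)) F) ^ g = z (Sum.inl ()) ^ k := by
      intro z
      unfold JetC JetS
      simp only [Set.mem_ofPred_eq, Set.mem_univ, true_and, map_pow]
      refine and_congr_right fun h2 => ?_
      exact pow_lead _ hg d _ (pow_ne_zero _ h2)
    constructor
    · rintro d' rfl
      ext z
      rw [h1]
      constructor
      · rintro ⟨h2, d'', h3, h4⟩
        have h5 := Nat.eq_of_mul_eq_mul_left hg h3
        subst h5
        exact ⟨h2, h4⟩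
      · rintro ⟨h2, h4⟩
        exact ⟨h2, d', rfl, h4⟩
    · intro h2
      ext z
      rw [h1]
      constructor
      · rintro ⟨_, d', h3, _⟩
        exact (h2 ⟨d', h3⟩).elim
      · intro h3
        exact h3.elim
  by_cases hd : ∃ d', d = g * d'
  · obtain ⟨d', hd'⟩ := hd
    rw [(key k hk).1 d' hd', (key 1 Nat.one_pos).1 d' hd', chi_U1 M h hg hk,
      chi_U1 M h hg Nat.one_pos, Nat.gcd_one_left, Nat.cast_one]
    ring
  · rw [(key k hk).2 hd, (key 1 Nat.one_pos).2 hd, Pool.Agent.W375.MT.chi_empty, mul_zero]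

end cov

/-- the cover of degree one -/
theorem chi_JetC_one {σ : Type} [Fintype σ] {R : Type} [CommRing R] (M : Meas ℂ R)
    (f : MvPolynomial σ ℂ) (d : ℕ) :
    M.χ _ (JetC f 1 d) = M.χ _ (JetS f Set.univ {c | c ≠ 0} d) := by
  have hS : Constr (JetS f Set.univ {c : AlgebraicClosure ℂ | c ≠ 0} d) := by
    unfold JetS
    exact Constr.and (Constr.const _) (Constr.and (Constr.allLt _ fun j _ =>
      Constr.eqz (pf_ar f j)) (Constr.not (Constr.eqz (pf_ar f d))))
  have h1 : ∀ j, IsPF fun z : Pt ℂ (Unit ⊕ σ × Fin (d + 1)) =>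
      PowerSeries.coeff j (aeval (ar fun i => z (Sum.inr i)) f) := fun j =>
    (pf_ar f j).comp (fun z : Pt ℂ (Unit ⊕ σ × Fin (d + 1)) => fun i => z (Sum.inr i))
      fun i => IsPF.coord _
  have hC : Constr (JetC f 1 d) := by
    unfold JetC JetS
    exact Constr.and (Constr.not (Constr.eqz (IsPF.coord _)))
      (Constr.and (Constr.const _) (Constr.and (Constr.allLt _ fun j _ => Constr.eqz (h1 j))
      (Constr.eq (h1 d) ((IsPF.coord _).pow 1))))
  refine M.iso _ _ hC hS (fun z i => z (Sum.inr i))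
    (fun y => Sum.elim (fun _ => PowerSeries.coeff d (aeval (ar y) f)) y)
    (regularOn_poly (fun i => IsPF.coord _) _) ?_ ?_ ?_ ?_ ?_
  · refine regularOn_poly (fun i => ?_) _
    rcases i with i | i
    · exact pf_ar f d
    · exact IsPF.coord _
  · rintro z ⟨h2, h3, h4, h5⟩
    refine ⟨h3, h4, ?_⟩
    have h6 : PowerSeries.coeff d (aeval (ar fun i => z (Sum.inr i)) f) = z (Sum.inl ()) ^ 1 := h5
    change PowerSeries.coeff d (aeval (ar fun i => z (Sum.inr i)) f) ≠ 0
    rw [h6, pow_one]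
    exact h2
  · rintro y ⟨h3, h4, h5⟩
    refine ⟨h5, h3, h4, ?_⟩
    change PowerSeries.coeff d (aeval (ar y) f) = PowerSeries.coeff d (aeval (ar y) f) ^ 1
    rw [pow_one]
  · rintro z ⟨h2, h3, h4, h5⟩
    have h6 : PowerSeries.coeff d (aeval (ar fun i => z (Sum.inr i)) f) = z (Sum.inl ()) ^ 1 := h5
    funext i
    rcases i with i | i
    · change PowerSeries.coeff d (aeval (ar fun i => z (Sum.inr i)) f) = z (Sum.inl i)
      rw [h6, pow_one]
    · rfl
  · intro y _
    rfl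

end Pool.Agent.TH192.MU
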