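import Pool.Agent.TH192.MU.Tw
import Pool.Agent.TH192.MU.TopZ

set_option autoImplicit false
set_option linter.unusedSectionVars false
set_option linter.unusedVariables false

/-! # The twisted topological zeta functions of the forms over determinantal ideals -/

namespace Pool.Agent.TH192.MU

open MvPolynomial Pool.Agent.W428.MOT Pool.Agent.H628R4.TP Pool.Agent.TH192.DT
  Pool.Agent.TH192.MT

/-! ### arithmetic -/

theorem gcd_sum (g n : ℕ) (hn : 0 < n) :
    ∑ i ∈ n.divisors, (if i ∣ g then (Nat.totient i : ℤ) else 0) = (Nat.gcd n g : ℤ) := by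
  rw [← Finset.sum_filter]
  have h1 : n.divisors.filter (fun i => i ∣ g) = (Nat.gcd n g).divisors := by
    ext i
    rw [Finset.mem_filter, Nat.mem_divisors, Nat.mem_divisors, Nat.dvd_gcd_iff]
    have h2 : Nat.gcd n g ≠ 0 := (Nat.gcd_pos_of_pos_left g hn).ne'
    constructor
    · rintro ⟨⟨h3, _⟩, h4⟩
      exact ⟨⟨h3, h4⟩, h2⟩
    · rintro ⟨⟨h3, h4⟩, _⟩
      exact ⟨⟨h3, hn.ne'⟩, h4⟩
  rw [h1]
  exact_mod_cast Nat.sum_totient (Nat.gcd n g)

theorem mob_gcd (g e : ℕ) (he : 0 < e) :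
    ∑ q ∈ e.divisorsAntidiagonal, ArithmeticFunction.moebius q.1 * (Nat.gcd q.2 g : ℤ) =
      if e ∣ g then (Nat.totient e : ℤ) else 0 := by
  have h1 := (ArithmeticFunction.sum_eq_iff_sum_mul_moebius_eq (R := ℤ)
    (f := fun i => if i ∣ g then (Nat.totient i : ℤ) else 0)
    (g := fun n => (Nat.gcd n g : ℤ))).1 (fun n hn => gcd_sum g n hn) e he
  simpa using h1

theorem exists_comb {ι : Type} [DecidableEq ι] (s : Finset ι) (b : ι → ℕ) :
    ∃ c : ι → ℤ, ∑ i ∈ s, (b i : ℤ) * c i = ((s.gcd b : ℕ) : ℤ) := by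
  induction s using Finset.induction_on with
  | empty => exact ⟨fun _ => 0, by simp⟩
  | insert i s hi ih =>
    obtain ⟨c, hc⟩ := ih
    refine ⟨fun j => if j = i then Nat.gcdA (b i) (s.gcd b) else
      c j * Nat.gcdB (b i) (s.gcd b), ?_⟩
    rw [Finset.sum_insert hi, Finset.gcd_insert]
    simp only [if_true]
    have h1 : ∑ j ∈ s, (b j : ℤ) * (if j = i then Nat.gcdA (b i) (s.gcd b) else
        c j * Nat.gcdB (b i) (s.gcd b)) = ((s.gcd b : ℕ) : ℤ) * Nat.gcdB (b i) (s.gcd b) := by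
      rw [← hc, Finset.sum_mul]
      refine Finset.sum_congr rfl fun j hj => ?_
      rw [if_neg (by rintro rfl; exact hi hj)]
      ring
    rw [h1]
    exact (Nat.gcd_eq_gcd_ab (b i) (s.gcd b)).symm

/-! ### the forms -/

theorem detForm_pow (S : MSpace) {T : ℕ} (p b : Fin T → ℕ) (g : ℕ) :
    detForm S p (fun t => g * b t) = detForm S p b ^ g := by
  unfold detForm
  rw [← Finset.prod_pow]
  refine Finset.prod_congr rfl fun t _ => ?_
  change _ ^ (g * b t) = _
  rw [mul_comm g, pow_mul]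

theorem hom1_detForm (S : MSpace) {T : ℕ} (p b : Fin T → ℕ) (c : Fin T → ℤ)
    (hc : ∑ t, (b t : ℤ) * c t = 1) :
    Hom1 (map (Int.castRingHom ℂ) (detForm S p b))
      (Sum.elim (fun q : Σ t, S.Idx (p t) => c q.1) fun _ => 0) := by
  intro μ hμ x
  have key : ∀ y : ((Σ t, S.Idx (p t)) ⊕ S.Var) → PowerSeries (AlgebraicClosure ℂ),
      aeval y (map (Int.castRingHom ℂ) (detForm S p b)) =
      ∏ t, (∑ j, y (Sum.inl ⟨t, j⟩) *
        aeval (fun v => y (Sum.inr v)) (map (Int.castRingHom ℂ) (minor S (p t) j))) ^ b t := by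
    intro y
    unfold detForm
    rw [map_prod, map_prod]
    refine Finset.prod_congr rfl fun t _ => ?_
    rw [map_pow, map_pow, map_sum, map_sum]
    congr 1
    refine Finset.sum_congr rfl fun j _ => ?_
    rw [map_mul, map_mul, map_X, aeval_X, map_rename, aeval_rename]
    rfl
  rw [key, key]
  have h1 : ∀ t, (∑ j, (PowerSeries.C (μ ^ (Sum.elim (fun q : Σ t, S.Idx (p t) => c q.1)
        (fun _ => (0 : ℤ)) (Sum.inl ⟨t, j⟩ : (Σ t, S.Idx (p t)) ⊕ S.Var))) *
        x (Sum.inl ⟨t, j⟩)) *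
        aeval (fun v => PowerSeries.C (μ ^ (Sum.elim (fun q : Σ t, S.Idx (p t) => c q.1)
          (fun _ => (0 : ℤ)) (Sum.inr v : (Σ t, S.Idx (p t)) ⊕ S.Var))) * x (Sum.inr v))
          (map (Int.castRingHom ℂ) (minor S (p t) j))) =
      PowerSeries.C (μ ^ c t) * ∑ j, x (Sum.inl ⟨t, j⟩) *
        aeval (fun v => x (Sum.inr v)) (map (Int.castRingHom ℂ) (minor S (p t) j)) := by
    intro t
    rw [Finset.mul_sum]
    refine Finset.sum_congr rfl fun j _ => ?_
    simp only [Sum.elim_inl, Sum.elim_inr, zpow_zero, map_one, one_mul]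
    ring
  have h2 : (∏ t, (PowerSeries.C (μ ^ c t) : PowerSeries (AlgebraicClosure ℂ)) ^ b t) =
      PowerSeries.C μ := by
    have h3 : ∀ t, (PowerSeries.C (μ ^ c t) : PowerSeries (AlgebraicClosure ℂ)) ^ b t =
        PowerSeries.C (μ ^ ((b t : ℤ) * c t)) := by
      intro t
      rw [← map_pow]
      congr 1
      rw [← zpow_natCast, ← zpow_mul, mul_comm]
    rw [Finset.prod_congr rfl fun t _ => h3 t, ← map_prod]
    congr 1
    have h4 : ∀ s : Finset (Fin T), ∏ t ∈ s, μ ^ ((b t : ℤ) * c t) =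
        μ ^ ∑ t ∈ s, (b t : ℤ) * c t := by
      intro s
      classical
      induction s using Finset.induction_on with
      | empty => simp
      | insert t s ht ih => rw [Finset.prod_insert ht, Finset.sum_insert ht, ih, zpow_add₀ hμ]
    rw [h4, hc, zpow_one]
  calc _ = ∏ t, (PowerSeries.C (μ ^ c t) * ∑ j, x (Sum.inl ⟨t, j⟩) *
        aeval (fun v => x (Sum.inr v)) (map (Int.castRingHom ℂ) (minor S (p t) j))) ^ b t :=
        Finset.prod_congr rfl fun t _ => by rw [← h1 t]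
    _ = _ := by
      rw [← h2, ← Finset.prod_mul_distrib]
      exact Finset.prod_congr rfl fun t _ => by rw [mul_pow]

/-- the class of the covers -/
theorem zetaC_eq (S : MSpace) (T : ℕ) (hT : 0 < T) (p a : Fin T → ℕ) (ha : ∀ t, 0 < a t)
    (k : ℕ) (hk : 0 < k) : zetaC (map (Int.castRingHom ℂ) (detForm S p a)) k =
      PowerSeries.C (Nat.gcd k (Finset.univ.gcd a) : MK ℂ) *
        zetaC (map (Int.castRingHom ℂ) (detForm S p a)) 1 := by
  obtain ⟨M, hL, hM⟩ := exists_meas ℂ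
  set g := Finset.univ.gcd a with hg
  have hgd : ∀ t, g ∣ a t := fun t => Finset.gcd_dvd (Finset.mem_univ t)
  have hgpos : 0 < g := by
    refine Nat.pos_of_ne_zero fun h0 => ?_
    have h1 := hgd ⟨0, hT⟩
    rw [h0, zero_dvd_iff] at h1
    exact (ha _).ne' h1
  choose b hb using hgd
  have hb' : a = fun t => g * b t := funext hb
  have hgb : Finset.univ.gcd b = 1 := by
    have h1 : g = g * Finset.univ.gcd b := by
      conv_lhs => rw [hg, hb']
      rw [Finset.gcd_mul_left]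
      simp
    exact (Nat.eq_of_mul_eq_mul_left hgpos (h1.symm.trans (mul_one g).symm))
  obtain ⟨c, hc⟩ := exists_comb Finset.univ b
  rw [hgb, Nat.cast_one] at hc
  have hf : map (Int.castRingHom ℂ) (detForm S p a) =
      map (Int.castRingHom ℂ) (detForm S p b) ^ g := by
    rw [← map_pow, ← detForm_pow, ← hb']
  have h1 := fun d => chi_JetC M (hom1_detForm S p b c hc) hgpos hk d
  rw [hf]
  ext d
  rw [PowerSeries.coeff_C_mul]
  unfold zetaC
  rw [PowerSeries.coeff_mk, PowerSeries.coeff_mk]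
  split_ifs with h0
  · rw [mul_zero]
  · rw [← hM, ← hM, h1 d, mul_assoc]

theorem zetaC_one {σ : Type} [Fintype σ] (f : MvPolynomial σ ℂ) :
    zetaC f 1 = zetaM f Set.univ {c | c ≠ 0} -
      PowerSeries.C (PowerSeries.coeff 0 (zetaM f Set.univ {c | c ≠ 0})) := by
  obtain ⟨M, hL, hM⟩ := exists_meas ℂ
  ext d
  rw [map_sub, PowerSeries.coeff_C]
  by_cases h0 : d = 0
  · subst h0
    unfold zetaC
    rw [PowerSeries.coeff_mk, if_pos rfl, if_pos rfl, sub_self]
  · rw [if_neg h0, sub_zero]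
    unfold zetaC zetaM
    rw [PowerSeries.coeff_mk, PowerSeries.coeff_mk, if_neg h0, ← hM, ← hM, chi_JetC_one]

/-! ### the topological zeta functions -/

theorem isTop_ne {R : Type} [CommRing R] {E : MK ℂ →+* R} {ε : R →+* ℂ}
    {Zm : PowerSeries (MK ℂ)} {Z : RatFunc ℂ} (h : IsTopZeta E ε Zm Z) (s : ℕ) (hs : 0 < s) :
    Z.denom.eval (s : ℂ) ≠ 0 := by
  intro h0
  obtain ⟨c, _, hc⟩ := h s hs
  rw [h0, mul_zero] at hc
  obtain ⟨x, y, hxy⟩ := Z.isCoprime_num_denom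
  have h7 := congrArg (Polynomial.eval (s : ℂ)) hxy
  rw [Polynomial.eval_add, Polynomial.eval_mul, Polynomial.eval_mul, hc, h0,
    Polynomial.eval_one] at h7
  simp at h7

theorem isTop_mul {R : Type} [CommRing R] [IsDomain R] {E : MK ℂ →+* R} {ε : R →+* ℂ}
    {Zm : PowerSeries (MK ℂ)} {Z : RatFunc ℂ} (h : IsTopZeta E ε Zm Z) (n : ℕ) :
    IsTopZeta E ε (PowerSeries.C (n : MK ℂ) * Zm) ((n : RatFunc ℂ) * Z) := by
  intro s hs
  obtain ⟨c, hc, hc'⟩ := h s hs
  refine ⟨n * c, ?_, ?_⟩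
  · have h1 : PowerSeries.map E (PowerSeries.C (n : MK ℂ) * Zm) =
        PowerSeries.C (n : R) * PowerSeries.map E Zm := by
      rw [map_mul, PowerSeries.map_C, map_natCast]
    rw [h1]
    have h2 := specAt_mul (specAt_C (u := Units.map (E : MK ℂ →* R) (Lu ℂ)) (ε := ε) (n : R) s) hc
    have h4 : ε (n : R) = n := map_natCast ε n
    rw [h4] at h2
    exact h2
  · have h3 : ((n : RatFunc ℂ) * Z).num * Z.denom =
        Polynomial.C (n : ℂ) * Z.num * ((n : RatFunc ℂ) * Z).denom := by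
      apply RatFunc.algebraMap_injective ℂ
      have h6 : algebraMap (Polynomial ℂ) (RatFunc ℂ) Z.denom ≠ 0 := by
        rw [Ne, map_eq_zero_iff _ (RatFunc.algebraMap_injective ℂ)]
        exact Z.denom_ne_zero
      have h7 : algebraMap (Polynomial ℂ) (RatFunc ℂ) ((n : RatFunc ℂ) * Z).denom ≠ 0 := by
        rw [Ne, map_eq_zero_iff _ (RatFunc.algebraMap_injective ℂ)]
        exact RatFunc.denom_ne_zero _
      have h8 := RatFunc.num_div_denom ((n : RatFunc ℂ) * Z)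
      have h9 := RatFunc.num_div_denom Z
      have h10 : algebraMap (Polynomial ℂ) (RatFunc ℂ) (Polynomial.C (n : ℂ)) =
          (n : RatFunc ℂ) := by
        rw [show (Polynomial.C (n : ℂ) : Polynomial ℂ) = (n : Polynomial ℂ) from
          map_natCast Polynomial.C n, map_natCast]
      rw [map_mul, map_mul, map_mul, h10]
      rw [div_eq_iff h7] at h8
      rw [div_eq_iff h6] at h9
      rw [h8, h9]
      ring
    have h4 := congrArg (Polynomial.eval (s : ℂ)) h3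
    rw [Polynomial.eval_mul, Polynomial.eval_mul, Polynomial.eval_mul, Polynomial.eval_C,
      hc'] at h4
    have h5 := isTop_ne h s hs
    have h6 : Z.denom.eval (s : ℂ) * (((n : RatFunc ℂ) * Z).num.eval (s : ℂ) -
        n * c * ((n : RatFunc ℂ) * Z).denom.eval (s : ℂ)) = 0 := by
      linear_combination h4
    exact sub_eq_zero.1 ((mul_eq_zero.1 h6).resolve_left h5)

/-- **The twisted topological zeta functions of the forms over determinantal ideals.** -/
theorem twisted_main (S : MSpace) (T : ℕ) (hT : 0 < T) (p a : Fin T → ℕ)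
    (hp : ∀ t, S.Small (p t)) (ha : ∀ t, 0 < a t) (e : ℕ) (he : 0 < e)
    {R : Type} [CommRing R] [IsDomain R] (E : MK ℂ →+* R) (ε : R →+* ℂ)
    (h1 : ε (E ((Lu ℂ : (MK ℂ)ˣ) : MK ℂ)) = 1) (hu : E ((Lu ℂ : (MK ℂ)ˣ) : MK ℂ) ≠ 1) :
    ∃ Z : RatFunc ℂ, IsTwistedTop E ε (map (Int.castRingHom ℂ) (detForm S p a)) e Z ∧
      (∀ Z', IsTwistedTop E ε (map (Int.castRingHom ℂ) (detForm S p a)) e Z' → Z' = Z) ∧
      ((∀ t, e ∣ a t) → IsTopZeta E ε (zetaC (map (Int.castRingHom ℂ) (detForm S p a)) 1) Z) ∧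
      ((∃ t, ¬ e ∣ a t) → Z = 0) ∧
      ∀ s₀ : ℂ, Z.denom.eval s₀ = 0 →
        (∀ t, e ∣ a t) ∧ ∃ q ∈ formPairs S p a, s₀ = (q.1 : ℂ) / q.2 := by
  set f := map (Int.castRingHom ℂ) (detForm S p a) with hf
  set g := Finset.univ.gcd a with hg
  have hmem : zetaC f 1 ∈ ratL (Lu ℂ) (formPairs S p a : Set (ℤ × ℤ)) := by
    rw [zetaC_one]
    exact Subalgebra.sub_mem _ (zetaM_memL S T p a hp ha Constr.univ) (ratL_C (Lu ℂ) _)
  obtain ⟨Z1, hZ1, hZ1u, hZ1p⟩ := topZeta_main E ε h1 hu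
    (fun q hq => ⟨(form_roots S T p a hp ha q hq).1, (form_roots S T p a hp ha q hq).2.1⟩) hmem
  -- the zeta functions of the covers
  have hY : ∀ k, 0 < k → IsTopZeta E ε (zetaC f k) ((Nat.gcd k g : RatFunc ℂ) * Z1) := by
    intro k hk
    rw [hf, zetaC_eq S T hT p a ha k hk]
    exact isTop_mul hZ1 _
  have hYu : ∀ k, 0 < k → ∀ Y, IsTopZeta E ε (zetaC f k) Y → Y = (Nat.gcd k g : RatFunc ℂ) * Z1 := by
    intro k hk Y hY'
    have hm : zetaC f k ∈ ratL (Lu ℂ) (formPairs S p a : Set (ℤ × ℤ)) := by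
      rw [hf, zetaC_eq S T hT p a ha k hk]
      exact Subalgebra.mul_mem _ (ratL_C (Lu ℂ) _) hmem
    obtain ⟨Z2, _, hZ2u, _⟩ := topZeta_main E ε h1 hu
      (fun q hq => ⟨(form_roots S T p a hp ha q hq).1, (form_roots S T p a hp ha q hq).2.1⟩) hm
    rw [hZ2u _ hY', hZ2u _ (hY k hk)]
  have hdiv : (∀ t, e ∣ a t) ↔ e ∣ g :=
    ⟨fun h => Finset.dvd_gcd fun t _ => h t, fun h t => h.trans (Finset.gcd_dvd (Finset.mem_univ t))⟩
  have hsum : ∀ Y : ℕ → RatFunc ℂ, (∀ k, k ∣ e → Y k = (Nat.gcd k g : RatFunc ℂ) * Z1) →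
      ∑ q ∈ e.divisorsAntidiagonal, ((ArithmeticFunction.moebius q.1 : ℤ) : RatFunc ℂ) * Y q.2 =
      (if e ∣ g then (Nat.totient e : RatFunc ℂ) else 0) * Z1 := by
    intro Y hY'
    have h2 := congrArg (fun n : ℤ => (n : RatFunc ℂ)) (mob_gcd g e he)
    simp only [Int.cast_sum, Int.cast_mul, Int.cast_natCast, Int.cast_ite, Int.cast_zero] at h2
    rw [← h2, Finset.sum_mul]
    refine Finset.sum_congr rfl fun q hq => ?_
    have h3 : q.2 ∣ e := Dvd.intro_left q.1 (Nat.mem_divisorsAntidiagonal.1 hq).1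
    rw [hY' _ h3, mul_assoc]
  have hφ : (Nat.totient e : RatFunc ℂ) ≠ 0 := by
    have h2 : 0 < Nat.totient e := Nat.totient_pos.2 he
    exact_mod_cast h2.ne'
  refine ⟨if e ∣ g then Z1 else 0, ?_, ?_, ?_, ?_, ?_⟩
  · refine ⟨fun k => (Nat.gcd k g : RatFunc ℂ) * Z1, fun k hk =>
      hY k (Nat.pos_of_dvd_of_pos hk he), ?_⟩
    rw [hsum _ fun k _ => rfl]
    split_ifs
    · rfl
    · rw [mul_zero, zero_mul]
  · rintro Z' ⟨Y, hY1, hY2⟩
    rw [hsum Y fun k hk => hYu k (Nat.pos_of_dvd_of_pos hk he) _ (hY1 k hk)] at hY2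
    split_ifs at hY2 ⊢ with h
    · exact mul_left_cancel₀ hφ hY2
    · rw [zero_mul] at hY2
      exact (mul_eq_zero.1 hY2).resolve_left hφ
  · intro h
    rw [if_pos (hdiv.1 h)]
    exact hZ1
  · rintro ⟨t, ht⟩
    rw [if_neg fun h => ht (hdiv.2 h t)]
  · intro s₀ hs
    by_cases h : e ∣ g
    · rw [if_pos h] at hs
      exact ⟨hdiv.2 h, hZ1p s₀ hs⟩
    · rw [if_neg h, RatFunc.denom_zero, Polynomial.eval_one] at hs
      exact (one_ne_zero hs).elim

/-- the divisibility of the numbers `N` -/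
theorem dvd_pairs (S : MSpace) {T : ℕ} (p a : Fin T → ℕ) (e : ℕ) (h : ∀ t, e ∣ a t)
    (q : ℤ × ℤ) (hq : q ∈ formPairs S p a) : (e : ℤ) ∣ q.2 := by
  unfold formPairs detPairs at hq
  rw [Finset.mem_union, Finset.mem_image, Finset.mem_image] at hq
  rcases hq with ⟨d, _, rfl⟩ | ⟨t, _, rfl⟩
  · exact Int.natCast_dvd_natCast.2 (Finset.dvd_sum fun t _ => Dvd.dvd.mul_right (h t) _)
  · exact Int.natCast_dvd_natCast.2 (h t)

end Pool.Agent.TH192.MU
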