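import Pool.Agent.TH192.MU.TDefs

set_option autoImplicit false

/-! # The form over the product of determinantal ideals -/

namespace Pool.Agent.TH192.MU

open MvPolynomial Pool.Agent.TH192.DT Pool.Agent.TH192.MT

/-- The polynomial `F = ∑_j y_j M_j(x)` in the variables `y_j` and `x`, the `M_j` being the products of one
minor (Pfaffian) of size `p t` (`2 (p t)`) for each `t`. -/
noncomputable def detUniv (S : MSpace) {T : ℕ} (p : Fin T → ℕ) :
    MvPolynomial (((t : Fin T) → S.Idx (p t)) ⊕ S.Var) ℤ :=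
  ∑ j, X (Sum.inl j) * rename Sum.inr (detProd S p j)

/-- The pairs `(-ν_d, N_d)`, `N_d = ∑ t, max (p t - d, 0) > 0`, and the pair `(-1, 1)`. -/
noncomputable def univPairs (S : MSpace) {T : ℕ} (p : Fin T → ℕ) : Finset (ℤ × ℤ) :=
  detPairs S p (fun _ => 1) ∪ {(-1, 1)}

end Pool.Agent.TH192.MU
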