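import Pool.Agent.TH192.MU.Blk
import Pool.Agent.TH192.MU.UDefs
import Pool.Agent.TH192.DT.Forms

set_option autoImplicit false
set_option linter.unusedSectionVars false
set_option linter.unusedVariables false

/-! # The form over the product of determinantal ideals -/

namespace Pool.Agent.TH192.MU

open MvPolynomial Pool.Agent.W428.MOT Pool.Agent.TH192.DT Pool.Agent.TH192.MT
  Pool.Agent.TH192.PA Pool.Agent.W574.SM Pool.Agent.W574.HS Pool.Agent.W574.LM
  Pool.Agent.H628R4.TP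

/-- The products of minors, as one family. -/
@[reducible] noncomputable def uSys (S : MSpace) {T : ℕ} (p : Fin T → ℕ) : Sys 1 where
  ι := S.Var
  fι := inferInstance
  Λ := (t : Fin T) → S.Idx (p t)
  fΛ := inferInstance
  τ _ := 0
  G j := detProd S p j

theorem u_rl {K : Type} [Field K] (S : MSpace) {T : ℕ} {R : Type} [CommRing R] {u : Rˣ}
    {M : Meas K R} (hu : M.L = (u : R)) (p : Fin T → ℕ) :
    RL u M (fun _ => 1) (Dset S.codim p (fun _ => 1) 0) (uSys S p) := by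
  have h1 := rl_blk (top_rl S hu p (fun _ => 1) (fun _ => Nat.one_pos))
  refine rl_change (Xs := uSys S p) (Ys := XB (topSys S p)) hu (Equiv.refl _) ?_ h1
  intro A _ x t
  unfold fI
  congr 1
  ext y
  constructor
  · rintro ⟨j, hj, rfl⟩
    refine ⟨⟨fun t => ⟨t, j t⟩, fun t => rfl⟩, Subsingleton.elim _ _, ?_⟩
    change ev x (detProd S p j) = ev x (∏ t, S.minorsZ (p t) (j t))
    congr 1
    exact Finset.prod_congr rfl fun t _ => minor_eq S (p t) (j t)
  · rintro ⟨c, hc, rfl⟩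
    have h2 : ∀ t, ∃ j : S.Idx (p t), (topSys S p).G (c.1 t) = minor S (p t) j := by
      intro t
      have h3 : ∀ (l : Σ t, S.Idx (p t)) (t : Fin T), l.1 = t →
          ∃ j : S.Idx (p t), S.minorsZ (p l.1) l.2 = minor S (p t) j := by
        rintro ⟨t', j⟩ t rfl
        exact ⟨j, (minor_eq S _ _).symm⟩
      exact h3 (c.1 t) t (c.2 t)
    choose j hj using h2
    refine ⟨j, Subsingleton.elim _ _, ?_⟩
    change ev x (∏ t, (topSys S p).G (c.1 t)) = ev x (detProd S p j)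
    congr 1
    exact Finset.prod_congr rfl fun t _ => hj t

theorem fX_u (S : MSpace) {T : ℕ} (p : Fin T → ℕ) :
    fX (uSys S p) (fun _ => 1) = detUniv S p := by
  classical
  unfold fX detUniv
  rw [Fin.prod_univ_one, pow_one]
  refine Finset.sum_congr rfl fun j _ => ?_
  rw [if_pos rfl]

theorem zetaM_univ (S : MSpace) (T : ℕ) (p : Fin T → ℕ) (hp : ∀ t, S.Small (p t))
    {W : Set (Pt ℂ (((t : Fin T) → S.Idx (p t)) ⊕ S.Var))} (hW : Constr W) :
    zetaM (map (Int.castRingHom ℂ) (detUniv S p)) W {c | c ≠ 0} ∈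
      ratL (Lu ℂ) (univPairs S p : Set (ℤ × ℤ)) := by
  obtain ⟨M, hL, hM⟩ := exists_meas ℂ
  have h0 : (detPairs S p (fun _ => 1) : Set (ℤ × ℤ)) ⊆ (univPairs S p : Set (ℤ × ℤ)) := by
    rw [Finset.coe_subset]
    exact Finset.subset_union_left
  have h1 := zetaS_memL (X := uSys S p) (a := fun _ => 1) hL (fun _ => Nat.one_pos)
    (D := (univPairs S p : Set (ℤ × ℤ)))
    (fun π _ V hV hG hC => ratL_mono (Lu ℂ) ((Dset_det S p (fun _ => 1) hp).trans h0)
      (u_rl S hL p π V hV hG hC))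
    (fun _ => by
      rw [Finset.mem_coe, univPairs, Finset.mem_union]
      exact Or.inr (Finset.mem_singleton.2 rfl)) (W := W) hW
  rw [fX_u] at h1
  have h2 : zetaM (map (Int.castRingHom ℂ) (detUniv S p)) W {c | c ≠ 0} =
      zetaS M (((Lu ℂ)⁻¹ : (MK ℂ)ˣ) : MK ℂ) (map (Int.castRingHom ℂ) (detUniv S p)) W
        {c | c ≠ 0} := by
    unfold zetaM zetaS
    congr 1
    funext d
    rw [hM, inv_pow_eq, Nat.mul_comm]
  rw [h2]
  exact h1

theorem map_detUniv (S : MSpace) {T : ℕ} (p : Fin T → ℕ) :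
    map (Int.castRingHom ℂ) (detUniv S p) = univ (S.prods p) := by
  unfold detUniv univ
  rw [map_sum]
  refine Finset.sum_congr rfl fun j _ => ?_
  rw [map_mul, map_X, map_rename, map_detProd]

theorem prods_ne (S : MSpace) {T : ℕ} (p : Fin T → ℕ) (hp : ∀ t, S.Small (p t)) :
    ∃ j, S.prods p j ≠ 0 := by
  refine exists_prod_ne (fun t => S.minors (p t)) fun t => ?_
  cases S with
  | gen m n => exact generic_ne (hp t).1.le (hp t).2.le
  | sym n => exact symm_ne (Nat.le_of_lt (hp t))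
  | skew n => exact pfaffians_ne (by have : 2 * p t + 1 < n := hp t; omega)

theorem univ_roots (S : MSpace) (T : ℕ) (p : Fin T → ℕ) (hp : ∀ t, S.Small (p t))
    (q : ℤ × ℤ) (hq : q ∈ univPairs S p) :
    q.1 < 0 ∧ 0 < q.2 ∧
      (∀ b : Polynomial ℂ, IsBFunction (map (Int.castRingHom ℂ) (detUniv S p)) b →
        b.eval ((q.1 : ℂ) / q.2) = 0) ∧
      ∀ b : Polynomial ℂ, IsLocalBFunction (map (Int.castRingHom ℂ) (detUniv S p)) b →
        b.eval ((q.1 : ℂ) / q.2) = 0 := by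
  rw [map_detUniv]
  rw [univPairs, Finset.mem_union, Finset.mem_singleton] at hq
  have hne := prods_ne S p hp
  rcases hq with hq | rfl
  · obtain ⟨h1, h2, h3⟩ := prod_roots S T p hp q hq
    rw [funext (map_detProd S p)] at h3
    refine ⟨h1, h2, fun b hb => h3 b 1 (by simp) (isLocEq_of_univ _ b hb), fun b hb => ?_⟩
    obtain ⟨H, hH, hHb⟩ := local_univ _ hne b hb
    exact h3 b H hH hHb
  · refine ⟨by norm_num, by norm_num, fun b hb => ?_, fun b hb => ?_⟩
    · have := minus_one_univ _ hne b hb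
      norm_num
      exact this
    · have := minus_one_local _ hne b hb
      norm_num
      exact this

theorem univ_top (S : MSpace) (T : ℕ) (p : Fin T → ℕ) (hp : ∀ t, S.Small (p t))
    {W : Set (Pt ℂ (((t : Fin T) → S.Idx (p t)) ⊕ S.Var))} (hW : Constr W)
    {R : Type} [CommRing R] [IsDomain R] (E : MK ℂ →+* R) (ε : R →+* ℂ)
    (h1 : ε (E ((Lu ℂ : (MK ℂ)ˣ) : MK ℂ)) = 1) (hu : E ((Lu ℂ : (MK ℂ)ˣ) : MK ℂ) ≠ 1) :
    ∃ Z : RatFunc ℂ,
      IsTopZeta E ε (zetaM (map (Int.castRingHom ℂ) (detUniv S p)) W {c | c ≠ 0}) Z ∧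
      (∀ Z', IsTopZeta E ε (zetaM (map (Int.castRingHom ℂ) (detUniv S p)) W {c | c ≠ 0}) Z' →
        Z' = Z) ∧
      ∀ s₀ : ℂ, Z.denom.eval s₀ = 0 → ∃ q ∈ univPairs S p, s₀ = (q.1 : ℂ) / q.2 :=
  topZeta_main E ε h1 hu (fun q hq => ⟨(univ_roots S T p hp q hq).1,
    (univ_roots S T p hp q hq).2.1⟩) (zetaM_univ S T p hp hW)

end Pool.Agent.TH192.MU
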