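import Pool.Agent.TH192.MU.Rec2
import Pool.Agent.TH192.MT.YR

set_option autoImplicit false
set_option linter.unusedSectionVars false
set_option linter.unusedVariables false

/-! # The auxiliary variables, with the factors `𝕃 - 1` -/

namespace Pool.Agent.TH192.MU

open MvPolynomial Pool.Agent.W428.MOT Pool.Agent.TH192.DT Pool.Agent.TH192.MT

section gf2

variable {R : Type} [CommRing R] {T : ℕ} (a : Fin T → ℕ)

theorem gf_C_mul (c : R) (m : (Fin T → ℕ) → R) :
    gf a (fun α => c * m α) = PowerSeries.C c * gf a m := by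
  ext l
  rw [PowerSeries.coeff_C_mul]
  unfold gf
  rw [PowerSeries.coeff_mk, PowerSeries.coeff_mk, Finset.mul_sum]

theorem kC_rec (ha : ∀ t, 0 < a t) (v : R) {s : Fin T} {B : Finset (Fin T)} (hs : s ∉ B) :
    gf a (kC v (insert s B)) = gf a (kC v B) + PowerSeries.C (v ^ 1) *
        PowerSeries.X ^ a s * gf a (kC v (insert s B)) := by
  classical
  set e : Fin T → ℕ := fun t => if t = s then 1 else 0 with he
  set m : (Fin T → ℕ) → R := fun β => if β s ≠ 0 then kC v (insert s B) β else 0 with hm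
  have h1 : kC v (insert s B) = fun β => kC v B β + m β := by
    funext β
    simp only [hm]
    by_cases hβ : β s = 0
    · rw [if_neg (not_not.2 hβ), add_zero]
      unfold kC
      have h2 : (∀ t, β t ≠ 0 → t ∈ insert s B) ↔ ∀ t, β t ≠ 0 → t ∈ B := by
        refine forall_congr' fun t => ?_
        constructor
        · intro h h3
          rcases Finset.mem_insert.1 (h h3) with rfl | h4
          · exact absurd hβ h3
          · exact h4
        · intro h h3
          exact Finset.mem_insert_of_mem (h h3)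
      simp only [h2]
    · rw [if_pos hβ]
      have h2 : kC v B β = 0 := by
        unfold kC
        rw [if_neg]
        intro h
        exact hs (h s hβ)
      rw [h2, zero_add]
  have h3 : gf a m = PowerSeries.C v * PowerSeries.X ^ (∑ t, a t * e t) *
      gf a (kC v (insert s B)) := by
    refine gf_shift a ha e _ _ _ ?_ ?_
    · rintro α ⟨t, ht⟩
      simp only [hm]
      rw [if_neg]
      rw [not_not]
      by_cases h : t = s
      · subst h
        simp only [he, if_true] at ht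
        omega
      · simp only [he, if_neg h] at ht
        omega
    · intro β
      simp only [hm]
      have h4 : (e s + β s) ≠ 0 := by
        simp only [he, if_true]
        omega
      rw [if_pos h4]
      unfold kC
      have h5 : (∀ t, e t + β t ≠ 0 → t ∈ insert s B) ↔ ∀ t, β t ≠ 0 → t ∈ insert s B := by
        refine forall_congr' fun t => ?_
        constructor
        · intro h h6
          exact h (by omega)
        · intro h h6
          by_cases h7 : t = s
          · rw [h7]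
            exact Finset.mem_insert_self _ _
          · simp only [he, if_neg h7, Nat.zero_add] at h6
            exact h h6
      simp only [h5]
      split_ifs
      · rw [Finset.sum_add_distrib, pow_add]
        congr 1
        have h8 : ∑ t, e t = 1 := by simp [he]
        rw [h8, pow_one]
      · rw [mul_zero]
  have h4 : ∑ t, a t * e t = a s := by simp [he]
  conv_lhs => rw [h1, gf_add]
  rw [h3, h4, pow_one]

theorem kB_kC (ha : ∀ t, 0 < a t) (v : R) (B : Finset (Fin T)) :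
    ∃ n : ℕ, gf a (kB v B) = PowerSeries.C (v ^ B.card) * PowerSeries.X ^ n * gf a (kC v B) := by
  classical
  set e : Fin T → ℕ := fun t => if t ∈ B then 1 else 0 with he
  refine ⟨∑ t, a t * e t, ?_⟩
  refine gf_shift a ha e _ _ _ ?_ ?_
  · rintro α ⟨t, ht⟩
    unfold kB
    rw [if_neg]
    intro h
    by_cases hB : t ∈ B
    · simp only [he, if_pos hB] at ht
      exact (h t).1 hB (by omega)
    · simp only [he, if_neg hB] at ht
      omega
  · intro β
    unfold kB kC
    have h5 : (∀ t, t ∈ B ↔ e t + β t ≠ 0) ↔ ∀ t, β t ≠ 0 → t ∈ B := by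
      constructor
      · intro h t ht
        exact (h t).2 (by omega)
      · intro h t
        constructor
        · intro ht
          simp only [he, if_pos ht]
          omega
        · intro ht
          by_contra h6
          simp only [he, if_neg h6, Nat.zero_add] at ht
          exact h6 (h t ht)
    simp only [h5]
    split_ifs
    · rw [Finset.sum_add_distrib, pow_add]
      congr 2
      simp [he]
    · rw [mul_zero]

theorem kC_memL (u : Rˣ) (ha : ∀ t, 0 < a t) {D : Set (ℤ × ℤ)}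
    (hD : ∀ t, (-1, (a t : ℤ)) ∈ D) (B : Finset (Fin T)) :
    PowerSeries.C (((u : R) - 1) ^ B.card) * gf a (kC ((u⁻¹ : Rˣ) : R) B) ∈ ratL u D := by
  classical
  induction B using Finset.induction_on with
  | empty =>
    refine Subalgebra.mul_mem _ (ratL_C u _) ?_
    rw [gf_const a ha]
    · exact ratL_C u _
    · rintro α ⟨t, ht⟩
      unfold kC
      rw [if_neg]
      intro h
      exact absurd (h t ht) (Finset.notMem_empty t)
  | insert s B hs ih =>
    refine geoL_solve u (ν := 1) (ha s) (hD s) _ _ ih ?_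
    have h1 := kC_rec a ha ((u⁻¹ : Rˣ) : R) hs
    rw [Finset.card_insert_of_notMem hs, pow_succ, map_mul]
    linear_combination (PowerSeries.C (((u : R) - 1) ^ B.card) * PowerSeries.C ((u : R) - 1)) * h1

theorem kB_memL (u : Rˣ) (ha : ∀ t, 0 < a t) {D : Set (ℤ × ℤ)}
    (hD : ∀ t, (-1, (a t : ℤ)) ∈ D) (B : Finset (Fin T)) :
    PowerSeries.C (((u : R) - 1) ^ B.card) * gf a (kB ((u⁻¹ : Rˣ) : R) B) ∈ ratL u D := by
  obtain ⟨n, hn⟩ := kB_kC a ha ((u⁻¹ : Rˣ) : R) B
  have h1 : PowerSeries.C (((u : R) - 1) ^ B.card) * gf a (kB ((u⁻¹ : Rˣ) : R) B) =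
      PowerSeries.C (((u⁻¹ : Rˣ) : R) ^ B.card) * PowerSeries.X ^ n *
        (PowerSeries.C (((u : R) - 1) ^ B.card) * gf a (kC ((u⁻¹ : Rˣ) : R) B)) := by
    rw [hn]
    ring
  rw [h1]
  exact Subalgebra.mul_mem _ (Subalgebra.mul_mem _ (ratL_C u _)
    (Subalgebra.pow_mem _ (ratL_X u) _)) (kC_memL a u ha hD B)

end gf2

section y

variable {K : Type} [Field K] {T : ℕ} (X : Sys T)

open Classical in
/-- the value of the form at the leading coefficients -/
noncomputable def sm (t : Fin T) (v : Pt K ((X.Λ ⊕ Fin T) ⊕ (X.ι ⊕ X.Λ))) : AlgebraicClosure K :=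
  ∑ l, if X.τ l = t then v (Sum.inl (Sum.inl l)) * v (Sum.inr (Sum.inr l)) else 0

/-- the point `(y_0, x_0)` -/
def yx (v : Pt K ((X.Λ ⊕ Fin T) ⊕ (X.ι ⊕ X.Λ))) : Pt K (X.Λ ⊕ X.ι) :=
  Sum.elim (fun l => v (Sum.inl (Sum.inl l))) (fun i => v (Sum.inr (Sum.inl i)))

/-- the conditions for the non-zero scalars, without the conditions on the parameters `c_t`,
`t ∈ B` -/
def VF (W : Set (Pt K (X.Λ ⊕ X.ι))) (B : Finset (Fin T)) :
    Set (Pt K ((X.Λ ⊕ Fin T) ⊕ (X.ι ⊕ X.Λ))) :=
  {v | yx X v ∈ W ∧ (∀ t, ∃ l, X.τ l = t ∧ v (Sum.inr (Sum.inr l)) ≠ 0) ∧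
    ∀ t, (t ∈ B → sm X t v = 0) ∧
      (t ∉ B → v (Sum.inl (Sum.inr t)) ≠ 0 ∧ sm X t v = v (Sum.inl (Sum.inr t)))}

/-- the same with all `c_t = 1` -/
def VC (W : Set (Pt K (X.Λ ⊕ X.ι))) (B : Finset (Fin T)) :
    Set (Pt K ((X.Λ ⊕ Fin T) ⊕ (X.ι ⊕ X.Λ))) :=
  {v | yx X v ∈ W ∧ (∀ t, ∃ l, X.τ l = t ∧ v (Sum.inr (Sum.inr l)) ≠ 0) ∧
    (∀ t, v (Sum.inl (Sum.inr t)) = 1) ∧
    ∀ t, (t ∈ B → sm X t v = 0) ∧ (t ∉ B → sm X t v ≠ 0)}

theorem pf_sm (t : Fin T) : IsPF (fun v : Pt K ((X.Λ ⊕ Fin T) ⊕ (X.ι ⊕ X.Λ)) => sm X t v) := by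
  classical
  refine IsPF.sum _ _ fun l _ => ?_
  split_ifs
  · exact (IsPF.coord _).mul (IsPF.coord _)
  · exact IsPF.zero

theorem pf_yx (i : X.Λ ⊕ X.ι) :
    IsPF (fun v : Pt K ((X.Λ ⊕ Fin T) ⊕ (X.ι ⊕ X.Λ)) => yx X v i) := by
  rcases i with l | i <;> exact IsPF.coord _

theorem constr_VF {W : Set (Pt K (X.Λ ⊕ X.ι))} (hW : Constr W) (B : Finset (Fin T)) :
    Constr (VF X W B) := by
  refine Constr.and (hW.preimage _ (pf_yx X)) (Constr.and ?_ ?_)
  · exact Constr.all fun t => Constr.ex fun l => Constr.and (Constr.const _)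
      (Constr.not (Constr.eqz (IsPF.coord _)))
  · exact Constr.all fun t => Constr.and
      (Constr.imp (Constr.const _) (Constr.eqz (pf_sm X t)))
      (Constr.imp (Constr.const _) (Constr.and (Constr.not (Constr.eqz (IsPF.coord _)))
        (Constr.eq (pf_sm X t) (IsPF.coord _))))

theorem constr_VC {W : Set (Pt K (X.Λ ⊕ X.ι))} (hW : Constr W) (B : Finset (Fin T)) :
    Constr (VC X W B) := by
  refine Constr.and (hW.preimage _ (pf_yx X)) (Constr.and ?_ (Constr.and ?_ ?_))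
  · exact Constr.all fun t => Constr.ex fun l => Constr.and (Constr.const _)
      (Constr.not (Constr.eqz (IsPF.coord _)))
  · exact Constr.all fun t => Constr.eq (IsPF.coord _) IsPF.one
  · exact Constr.all fun t => Constr.and
      (Constr.imp (Constr.const _) (Constr.eqz (pf_sm X t)))
      (Constr.imp (Constr.const _) (Constr.not (Constr.eqz (pf_sm X t))))

theorem gd_VC (W : Set (Pt K (X.Λ ⊕ X.ι))) (B : Finset (Fin T)) : Gd X (VC X W B) :=
  fun _ hv => hv.2.1

theorem cone_VC (W : Set (Pt K (X.Λ ⊕ X.ι))) (B : Finset (Fin T)) : Cone X (VC X W B) := by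
  classical
  rintro v ⟨h1, h2, h3, h4⟩ μ hμ
  have h5 : ∀ t, sm X t (scL X μ v) = μ t * sm X t v := by
    intro t
    unfold sm
    rw [Finset.mul_sum]
    refine Finset.sum_congr rfl fun l _ => ?_
    split_ifs with hl
    · change v (Sum.inl (Sum.inl l)) * (μ (X.τ l) * v (Sum.inr (Sum.inr l))) = _
      rw [hl]
      ring
    · rw [mul_zero]
  refine ⟨h1, fun t => ?_, h3, fun t => ⟨fun ht => ?_, fun ht => ?_⟩⟩
  · obtain ⟨l, hl, hl'⟩ := h2 t
    exact ⟨l, hl, mul_ne_zero (hμ _) hl'⟩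
  · rw [h5, (h4 t).1 ht, mul_zero]
  · rw [h5]
    exact mul_ne_zero (hμ t) ((h4 t).2 ht)

/-- change of the parameters `c` -/
def setc {N : ℕ} (z : Pt K ((X.Λ ⊕ Fin T) ⊕ X.ι × Fin (N + 1))) (w : Fin T → AlgebraicClosure K) :
    Pt K ((X.Λ ⊕ Fin T) ⊕ X.ι × Fin (N + 1)) :=
  Sum.elim (Sum.elim (fun l => z (Sum.inl (Sum.inl l))) w) (fun q => z (Sum.inr q))

theorem dat_setc (α : Fin T → ℕ) {N : ℕ} (z : Pt K ((X.Λ ⊕ Fin T) ⊕ X.ι × Fin (N + 1)))
    (w : Fin T → AlgebraicClosure K) (t : Fin T) :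
    sm X t (dat X α (setc X z w)) = sm X t (dat X α z) := rfl

variable {R : Type} [CommRing R] (M : Meas K R)

theorem chi_VB (a : Fin T → ℕ) {W : Set (Pt K (X.Λ ⊕ X.ι))} (hW : Constr W)
    (B : Finset (Fin T)) (α : Fin T → ℕ) (N : ℕ) :
    M.χ _ (SS X (VB X a W {c | c ≠ 0} B) α N) =
      (M.L - 1) ^ B.card * M.χ _ (SS X (VC X W B) α N) := by
  classical
  set S : Set (Pt K ((X.Λ ⊕ Fin T) ⊕ X.ι × Fin (N + 1))) := SS X (VF X W B) α N with hS
  have hSc : Constr S := constr_SS X (constr_VF X hW B) α N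
  set F0 : Finset ((X.Λ ⊕ Fin T) ⊕ X.ι × Fin (N + 1)) :=
    B.map ⟨fun t => Sum.inl (Sum.inr t), fun t t' h => by simpa using h⟩ with hF0
  have hF : ∀ (q : (X.Λ ⊕ Fin T) ⊕ X.ι × Fin (N + 1)), q ∈ F0 ↔ ∃ t ∈ B, Sum.inl (Sum.inr t) = q := by
    intro q
    rw [hF0, Finset.mem_map]
    rfl
  have h1 := Pool.Agent.W417.MT.Free.main M S F0 ∅ (fun _ => 1)
    (Finset.disjoint_empty_right _) hSc (by
      rintro z w hzw ⟨hz1, hz2, hz3, hz4⟩
      have h2 : ∀ q, w (Sum.inr q) = z (Sum.inr q) := by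
        intro q
        refine hzw _ ?_ (Finset.notMem_empty _)
        rw [hF]
        rintro ⟨t, _, ht⟩
        exact absurd ht (by simp)
      have h3 : ∀ l, w (Sum.inl (Sum.inl l)) = z (Sum.inl (Sum.inl l)) := by
        intro l
        refine hzw _ ?_ (Finset.notMem_empty _)
        rw [hF]
        rintro ⟨t, _, ht⟩
        exact absurd ht (by simp)
      have h4 : ∀ t, t ∉ B → w (Sum.inl (Sum.inr t)) = z (Sum.inl (Sum.inr t)) := by
        intro t ht
        refine hzw _ ?_ (Finset.notMem_empty _)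
        rw [hF]
        rintro ⟨t', ht', h⟩
        have h5 : t' = t := by simpa using h
        exact ht (h5 ▸ ht')
      have h5 : w = setc X z fun t => w (Sum.inl (Sum.inr t)) := by
        funext i
        rcases i with (l | t) | q
        · exact h3 l
        · rfl
        · exact h2 q
      rw [h5]
      refine ⟨hz1, hz2, hz3, fun t => ⟨fun ht => ?_, fun ht => ?_⟩⟩
      · rw [dat_setc]
        exact (hz4 t).1 ht
      · rw [dat_setc]
        obtain ⟨h6, h7⟩ := (hz4 t).2 ht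
        refine ⟨?_, ?_⟩
        · change w (Sum.inl (Sum.inr t)) ≠ 0
          rw [h4 t ht]
          exact h6
        · rw [h7]
          exact (h4 t ht).symm)
  rw [Finset.union_empty, Finset.card_empty, pow_zero, mul_one] at h1
  have h2 : S ∩ {z | ∀ i ∈ F0, z i ≠ 0} = SS X (VB X a W {c | c ≠ 0} B) α N := by
    ext z
    simp only [Set.mem_inter_iff, Set.mem_ofPred_eq, hF]
    constructor
    · rintro ⟨⟨h3, h4, h5, h6⟩, h7⟩
      have h8 : ∀ t, dat X α z (Sum.inl (Sum.inr t)) ≠ 0 := by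
        intro t
        by_cases ht : t ∈ B
        · exact h7 _ ⟨t, ht, rfl⟩
        · exact ((h6 t).2 ht).1
      refine ⟨h3, h4, h5, h8, ?_, fun t => ?_⟩
      · exact Finset.prod_ne_zero_iff.2 fun t _ => pow_ne_zero _ (h8 t)
      · split_ifs with ht
        · exact (h6 t).1 ht
        · exact ((h6 t).2 ht).2
    · rintro ⟨h3, h4, h5, h6, h7, h8⟩
      refine ⟨⟨h3, h4, h5, fun t => ⟨fun ht => ?_, fun ht => ⟨h6 t, ?_⟩⟩⟩, ?_⟩
      · have := h8 t
        rw [if_pos ht] at this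
        exact this
      · have := h8 t
        rw [if_neg ht] at this
        exact this
      · rintro i ⟨t, ht, rfl⟩
        exact h6 t
  rw [h2] at h1
  rw [h1, hF0, Finset.card_map, mul_comm]
  congr 1
  rw [← hF0]
  -- elimination of the other parameters
  have hA1 : Constr (S ∩ {z | ∀ i ∈ F0, z i = algebraMap K _ (1 : K)}) :=
    hSc.inter (Constr.ballFinset F0 fun i _ => Constr.eq (IsPF.coord i) (IsPF.const 1))
  refine M.iso _ _ hA1 (constr_SS X (constr_VC X hW B) α N)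
    (fun z => setc X z fun _ => 1)
    (fun w => setc X w fun t => if t ∈ B then 1 else sm X t (dat X α w))
    (regularOn_poly (fun i => ?_) _) (regularOn_poly (fun i => ?_) _) ?_ ?_ ?_ ?_
  · rcases i with (l | t) | q
    · exact IsPF.coord _
    · exact IsPF.one
    · exact IsPF.coord _
  · rcases i with (l | t) | q
    · exact IsPF.coord _
    · change IsPF fun w : Pt K ((X.Λ ⊕ Fin T) ⊕ X.ι × Fin (N + 1)) =>
        if t ∈ B then 1 else sm X t (dat X α w)
      split_ifs
      · exact IsPF.one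
      · exact (pf_sm X t).comp (fun w => dat X α w) (pf_dat X α)
    · exact IsPF.coord _
  · rintro z ⟨⟨h3, h4, h5, h6⟩, h7⟩
    refine ⟨h3, h4, h5, fun t => rfl, fun t => ⟨fun ht => (h6 t).1 ht, fun ht => ?_⟩⟩
    rw [dat_setc, ((h6 t).2 ht).2]
    exact ((h6 t).2 ht).1
  · rintro w ⟨h3, h4, h5, h6, h7⟩
    refine ⟨⟨h3, h4, h5, fun t => ⟨fun ht => (h7 t).1 ht, fun ht => ?_⟩⟩, ?_⟩
    · have h8 : dat X α (setc X w fun t => if t ∈ B then 1 else sm X t (dat X α w))
          (Sum.inl (Sum.inr t)) = sm X t (dat X α w) := if_neg ht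
      rw [h8, dat_setc]
      exact ⟨(h7 t).2 ht, rfl⟩
    · intro i hi
      obtain ⟨t, ht, rfl⟩ := (hF i).1 hi
      change (if t ∈ B then 1 else sm X t (dat X α w)) = _
      rw [if_pos ht, map_one]
  · rintro z ⟨⟨h3, h4, h5, h6⟩, h7⟩
    funext i
    rcases i with (l | t) | q
    · rfl
    · change (if t ∈ B then 1 else sm X t (dat X α (setc X z fun _ => 1))) = z (Sum.inl (Sum.inr t))
      split_ifs with ht
      · rw [h7 (Sum.inl (Sum.inr t)) ((hF _).2 ⟨t, ht, rfl⟩), map_one]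
      · rw [dat_setc, ((h6 t).2 ht).2]
        rfl
    · rfl
  · rintro w ⟨h3, h4, h5, h6, h7⟩
    funext i
    rcases i with (l | t) | q
    · rfl
    · exact (h6 t).symm
    · rfl

theorem mm_VB (v : R) (a : Fin T → ℕ) {W : Set (Pt K (X.Λ ⊕ X.ι))} (hW : Constr W)
    (B : Finset (Fin T)) (α : Fin T → ℕ) :
    mm M v X (VB X a W {c | c ≠ 0} B) α = (M.L - 1) ^ B.card * mm M v X (VC X W B) α := by
  unfold mm
  rw [chi_VB X M a hW, mul_assoc]

variable {X}

theorem good_ne' : GoodE ({c | c ≠ 0} : Set (AlgebraicClosure K)) :=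
  ⟨fun h => h rfl, Constr.not (Constr.eqz (IsPF.coord (0 : Fin 1)))⟩

/-- **Rationality of the zeta functions.** -/
theorem zetaS_memL {M : Meas K R} {u : Rˣ} (hu : M.L = (u : R)) {a : Fin T → ℕ}
    (ha : ∀ t, 0 < a t) {D : Set (ℤ × ℤ)} (hX : RL u M a D X) (hD : ∀ t, (-1, (a t : ℤ)) ∈ D)
    {W : Set (Pt K (X.Λ ⊕ X.ι))} (hW : Constr W) :
    zetaS M ((u⁻¹ : Rˣ) : R) (map (Int.castRingHom K) (fX X a)) W {c | c ≠ 0} ∈ ratL u D := by
  rw [zetaS_eq M _ (hv hu) ha hW good_ne']
  refine Subalgebra.sum_mem _ fun B _ => ?_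
  have h1 : mm M (((u⁻¹ : Rˣ) : R)) X (VB X a W {c | c ≠ 0} B) =
      fun α => ((u : R) - 1) ^ B.card * mm M (((u⁻¹ : Rˣ) : R)) X (VC X W B) α := by
    funext α
    rw [mm_VB X M _ a hW, hu]
  rw [h1, gf_C_mul]
  have h2 : PowerSeries.C (((u : R) - 1) ^ B.card) *
      gf a (mm M (((u⁻¹ : Rˣ) : R)) X (VC X W B)) * gf a (kB ((u⁻¹ : Rˣ) : R) B) =
      gf a (mm M (((u⁻¹ : Rˣ) : R)) X (VC X W B)) *
        (PowerSeries.C (((u : R) - 1) ^ B.card) * gf a (kB ((u⁻¹ : Rˣ) : R) B)) := by ring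
  rw [h2]
  exact Subalgebra.mul_mem _ (hX _ _ (constr_VC X hW B) (gd_VC X W B) (cone_VC X W B))
    (kB_memL a u ha hD B)

end y

end Pool.Agent.TH192.MU
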